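import Mathlib
import Pool.Agent.TH285.Ff.Level
import Pool.Agent.TH285.Ff.Param

set_option autoImplicit false

namespace Pool.Agent.Y782.FF

open MeasureTheory Finset Filter Pool.Agent.TH285.Ff
open scoped ENNReal Topology

/-- the word `w` agrees with the pattern `z` -/
def agrees {n : ℕ} (z : Fin n → Option Bool) (w : Fin n → Bool) : Prop :=
  ∀ k b, z k = some b → w k = b

open Classical in
/-- weight of a pattern -/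
noncomputable def marg {n : ℕ} (Q : (Fin n → Bool) → ℝ) (z : Fin n → Option Bool) : ℝ :=
  ∑ w : Fin n → Bool, if agrees z w then Q w else 0

/-- a favourable target -/
def GoodT' (a : ℕ) (lam ε : ℝ) (c : Code a) (Q : (n : ℕ) → (Fin n → Bool) → ℝ) (ℓ : ℕ)
    (z : Fin ℓ → Option Bool) : Prop :=
  stars z ≤ ⌊ε * ℓ⌋₊ ∧ marg (Q ℓ) z * lam ^ (2 * ℓ) / 4 < wt (nu a) {u | Kw c u = z}

open Classical in
/-- the targets -/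
noncomputable def tgt' {ι : Type} (Q : ι → (n : ℕ) → (Fin n → Bool) → ℝ) (a : ℕ) (lam ε : ℝ)
    (task : ℕ → Code a × ι) (ℓ : ℕ) : Set (Fin ℓ → Fin (2 ^ a)) :=
  if h : ∃ z, GoodT' a lam ε (task ℓ).1 (Q (task ℓ).2) ℓ z then
    {u | Kw (task ℓ).1 u = h.choose} else ∅

/-- FF-GOOD -/
def S_GOOD : Prop :=
  ∀ (a n : ℕ) (c : Code a) (lam ε : ℝ), 0 < lam → ∀ Q : (n : ℕ) → (Fin n → Bool) → ℝ,
    (∀ n w, 0 ≤ Q n w) → (∀ n, ∑ w, Q n w ≤ 1) →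
    (∃ x : ℝ, 0 < x ∧ x ≤ 1 ∧ ∀ n : ℕ, (1 + x) ^ n * lam ^ n ≤ x ^ (⌊ε * n⌋₊)) →
    lam ^ n / 2 ≤ wt (nu a) {u : Fin n → Fin (2 ^ a) | stars (Kw c u) ≤ ⌊ε * n⌋₊} →
    ∃ z, GoodT' a lam ε c Q n z

/-- FF-DEF -/
def S_DEF : Prop :=
  ∀ (ι : Type) (Q : ι → (n : ℕ) → (Fin n → Bool) → ℝ), (∀ i n w, 0 ≤ Q i n w) →
    (∀ i n, ∑ w, Q i n w ≤ 1) → ∀ (P : Par) (m : ℕ), (∀ᵐ ω ∂mu, Good P ω) →
    ∀ (h lam ρ ε : ℝ), 0 < h → h < 1 → 0 < lam → lam < 1 → 0 < ρ → 0 < ε → ε ≤ 1 / 2 →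
    (1 - h) ^ (th (P.al m) / (1 + th (P.al m)) / 2) < (1 - th (P.al m) ^ 2) * lam ^ 3 →
    (∃ x : ℝ, 0 ≤ x ∧ x ≤ 1 ∧ ∀ n : ℕ,
      lam ^ n ≤ (1 - x) ^ n * (x * (1 / 2 : ℝ) ^ (2 ^ P.al m)) ^ (⌊ρ * n⌋₊)) →
    (∃ x : ℝ, 0 < x ∧ x ≤ 1 ∧ ∀ n : ℕ, (1 + x) ^ n * lam ^ n ≤ x ^ (⌊ε * n⌋₊)) →
    ∀ task : ℕ → Code (P.al m) × ι, (∀ t N, ∃ n, N ≤ n ∧ task n = t) →
    P.D m = tgt' Q (P.al m) lam ε task →
    mu.real {ω | (enc (P.al m) (U P m ω 0)).2 ≠ (enc (P.al m) (ω 0)).2} ≤ ρ / 4 →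
    ∀ Zb : (ℤ → ℕ) → ℤ → Bool, Measurable Zb → (∀ᵐ ω ∂mu, ∀ k, Zb (sh k ω) 0 = Zb ω k) →
    (∀ n (z : Fin n → Option Bool),
      mu.real {ω | ∀ k : Fin n, ∀ b, z k = some b → Zb ω ((k : ℕ) : ℤ) = b} ≤
        (1 - h) ^ (n - stars z)) →
    (∃ (i : ι) (C : ℝ), 1 ≤ C ∧ ∀ n (z : Fin n → Option Bool),
      mu.real {ω | ∀ k : Fin n, ∀ b, z k = some b → Zb ω ((k : ℕ) : ℤ) = b} * lam ^ n ≤
        C * marg (Q i n) z) →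
    (∀ᵐ ω ∂mu, ∃ r : ℕ, ∀ᵐ ω' ∂mu,
      (∀ j : ℤ, -r ≤ j → j ≤ r → (enc (P.al m) (U P m ω' j)).2 = (enc (P.al m) (U P m ω j)).2) →
        Zb ω' 0 = Zb ω 0) → False

/-- FF-PAR -/
def S_PAR : Prop :=
  ∀ (ι : Type) [Countable ι] [Nonempty ι] (Q : ι → (n : ℕ) → (Fin n → Bool) → ℝ),
    ∃ P : Par, 1 ≤ P.al 0 ∧ (∀ᵐ ω ∂mu, Good P ω) ∧
    ∀ m : ℕ, ∃ (lam ρ ε : ℝ) (task : ℕ → Code (P.al m) × ι), 0 < lam ∧ lam < 1 ∧ 0 < ρ ∧ 0 < ε ∧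
      ε ≤ 1 / 2 ∧
      (1 - 1 / ((m : ℝ) + 2)) ^ (th (P.al m) / (1 + th (P.al m)) / 2)
        < (1 - th (P.al m) ^ 2) * lam ^ 3 ∧
      (∃ x : ℝ, 0 ≤ x ∧ x ≤ 1 ∧ ∀ n : ℕ,
        lam ^ n ≤ (1 - x) ^ n * (x * (1 / 2 : ℝ) ^ (2 ^ P.al m)) ^ (⌊ρ * n⌋₊)) ∧
      (∃ x : ℝ, 0 < x ∧ x ≤ 1 ∧ ∀ n : ℕ, (1 + x) ^ n * lam ^ n ≤ x ^ (⌊ε * n⌋₊)) ∧
      (∀ t N, ∃ n, N ≤ n ∧ task n = t) ∧
      P.D m = tgt' Q (P.al m) lam ε task ∧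
      mu.real {ω | (enc (P.al m) (U P m ω 0)).2 ≠ (enc (P.al m) (ω 0)).2} ≤ ρ / 4

/-! ## Kernels of finite order -/

/-- kernels of finite order with rational values: the order `r` and the probability of `true` after
each word of length `r` -/
def Ker : Type := Σ r : ℕ, ((Fin r → Bool) → ℚ)

/-- clamp to `[0,1]` -/
noncomputable def clamp (x : ℝ) : ℝ := max 0 (min 1 x)

/-- the weights of a kernel of finite order -/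
noncomputable def kw (κ : Ker) : (n : ℕ) → (Fin n → Bool) → ℝ
  | 0, _ => 1
  | n + 1, w => kw κ n (Fin.init w) *
      (if h : κ.1 ≤ n then
        (if w (Fin.last n) = true then clamp (κ.2 (fun k => w ⟨n - κ.1 + k, by omega⟩))
          else 1 - clamp (κ.2 (fun k => w ⟨n - κ.1 + k, by omega⟩)))
      else 1 / 2)

/-- FF-KW: the weights of a kernel are a probability vector -/
def S_KW : Prop := ∀ (κ : Ker) (n : ℕ), (∀ w, 0 ≤ kw κ n w) ∧ ∑ w, kw κ n w = 1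

/-- FF-DOM: a stationary law with continuous positive transition probabilities is dominated by
kernels of finite order -/
def S_DOM : Prop :=
  ∀ (p : (n : ℕ) → (Fin n → Bool) → ℝ), (∀ n w, 0 ≤ p n w) → (∀ n w, p n w ≤ 1) →
    (∀ n w, p n w = p (n + 1) (Fin.snoc w true) + p (n + 1) (Fin.snoc w false)) →
    (∃ h : ℝ, 0 < h ∧ ∀ n (w : Fin (n + 1) → Bool), h * p n (Fin.init w) ≤ p (n + 1) w) →
    0 < p 0 (fun k => k.elim0) →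
    (∀ δ : ℝ, 0 < δ → ∃ r : ℕ, ∀ (n : ℕ) (w : Fin (n + (r + 1)) → Bool),
      p (n + (r + 1)) w * p r (fun k => w ⟨n + k, by omega⟩) ≤
        (1 + δ) * (p (n + r) (fun k => w ⟨k, by omega⟩) * p (r + 1) (fun k => w ⟨n + k, by omega⟩))) →
    ∀ lam : ℝ, 0 < lam → lam < 1 → ∃ (κ : Ker) (C : ℝ), 1 ≤ C ∧ ∀ n w, p n w * lam ^ n ≤ C * kw κ n w

/-- FF-PAT: bound for patterns -/
def S_PAT : Prop :=
  ∀ (p : (n : ℕ) → (Fin n → Bool) → ℝ), (∀ n w, 0 ≤ p n w) → (∀ n w, p n w ≤ 1) →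
    (∀ n w, p n w = p (n + 1) (Fin.snoc w true) + p (n + 1) (Fin.snoc w false)) →
    ∀ h : ℝ, 0 < h → h ≤ 1 → (∀ n (w : Fin (n + 1) → Bool), h * p n (Fin.init w) ≤ p (n + 1) w) →
    ∀ n (z : Fin n → Option Bool), marg (p n) z ≤ (1 - h) ^ (n - stars z)

end Pool.Agent.Y782.FF
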