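import Mathlib
import Pool.Agent.Y782.FF.Stm

/-!
# Project FF: kernels of finite order over general alphabets, and lumping
-/

set_option autoImplicit false

namespace Pool.Agent.Y782.FF

/-- kernels of finite order over `Fin N` with rational values -/
def KerN (N : ℕ) : Type := Σ r : ℕ, ((Fin r → Fin N) → Fin N → ℚ)

/-- the kernel of order `r` with values `q` -/
def mkN {N : ℕ} (r : ℕ) (q : (Fin r → Fin N) → Fin N → ℚ) : KerN N := ⟨r, q⟩

open Classical in
/-- the value of a kernel; zero if the values after `v` are not a sub-probability vector -/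
noncomputable def kv {N r : ℕ} (q : (Fin r → Fin N) → Fin N → ℚ) (v : Fin r → Fin N)
    (b : Fin N) : ℝ :=
  if (∀ c, (0 : ℝ) ≤ q v c) ∧ ∑ c, (q v c : ℝ) ≤ 1 then (q v b : ℝ) else 0

theorem kv_nonneg {N r : ℕ} (q : (Fin r → Fin N) → Fin N → ℚ) (v : Fin r → Fin N) (b : Fin N) :
    0 ≤ kv q v b := by
  unfold kv
  split_ifs with h
  · exact h.1 b
  · exact le_rfl

theorem kv_sum {N r : ℕ} (q : (Fin r → Fin N) → Fin N → ℚ) (v : Fin r → Fin N) :
    ∑ b, kv q v b ≤ 1 := by
  unfold kv
  by_cases h : (∀ c, (0 : ℝ) ≤ q v c) ∧ ∑ c, (q v c : ℝ) ≤ 1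
  · simp only [if_pos h]
    exact h.2
  · simp only [if_neg h]
    simp

/-- the weights of a kernel -/
noncomputable def kwN {N : ℕ} (κ : KerN N) : (n : ℕ) → (Fin n → Fin N) → ℝ
  | 0, _ => 1
  | n + 1, w => kwN κ n (Fin.init w) *
      (if h : κ.1 ≤ n then kv κ.2 (fun k => w ⟨n - κ.1 + k, by omega⟩) (w (Fin.last n))
      else 1 / (N : ℝ))

theorem kwN_mk {N : ℕ} (r : ℕ) (q : (Fin r → Fin N) → Fin N → ℚ) (n : ℕ) (w : Fin (n + 1) → Fin N) :
    kwN (mkN r q) (n + 1) w = kwN (mkN r q) n (Fin.init w) *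
      (if h : r ≤ n then kv q (fun k => w ⟨n - r + k, by omega⟩) (w (Fin.last n))
      else 1 / (N : ℝ)) := rfl

theorem kwN_nonneg {N : ℕ} (κ : KerN N) (n : ℕ) (w : Fin n → Fin N) : 0 ≤ kwN κ n w := by
  induction n with
  | zero => exact zero_le_one
  | succ n ih =>
    unfold kwN
    refine mul_nonneg (ih _) ?_
    split_ifs
    · exact kv_nonneg _ _ _
    · positivity

theorem kwN_sum {N : ℕ} (κ : KerN N) (n : ℕ) : ∑ w, kwN κ n w ≤ 1 := by
  induction n with
  | zero => simp [kwN]
  | succ n ih =>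
    rw [← (Fin.snocEquiv (fun _ : Fin (n + 1) => Fin N)).sum_comp, Fintype.sum_prod_type_right]
    refine le_trans (Finset.sum_le_sum (g := fun w => kwN κ n w) fun w _ => ?_) ih
    have hkey : ∀ b : Fin N,
        kwN κ (n + 1) ((Fin.snocEquiv (fun _ : Fin (n + 1) => Fin N)) (b, w)) = kwN κ n w *
          (if h : κ.1 ≤ n then kv κ.2 (fun k => w ⟨n - κ.1 + k, by omega⟩) b
          else 1 / (N : ℝ)) := by
      intro b
      rw [kwN]
      have h1 : Fin.init ((Fin.snocEquiv (fun _ : Fin (n + 1) => Fin N)) (b, w)) = w := by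
        simp [Fin.snocEquiv]
      have h2 : ((Fin.snocEquiv (fun _ : Fin (n + 1) => Fin N)) (b, w)) (Fin.last n) = b := by
        simp [Fin.snocEquiv]
      rw [h1, h2]
      congr 1
      by_cases hr : κ.1 ≤ n
      · rw [dif_pos hr, dif_pos hr]
        have h3 : (fun k : Fin κ.1 => ((Fin.snocEquiv (fun _ : Fin (n + 1) => Fin N)) (b, w))
            ⟨n - κ.1 + k, by omega⟩) = fun k : Fin κ.1 => w ⟨n - κ.1 + k, by omega⟩ := by
          funext k
          have hk := k.2
          have h4 : (⟨n - κ.1 + k, by omega⟩ : Fin (n + 1)) =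
              Fin.castSucc ⟨n - κ.1 + k, by omega⟩ := rfl
          rw [h4]
          exact Fin.snoc_castSucc (α := fun _ : Fin (n + 1) => Fin N) b w _
        rw [h3]
      · rw [dif_neg hr, dif_neg hr]
    calc ∑ b, kwN κ (n + 1) ((Fin.snocEquiv (fun _ : Fin (n + 1) => Fin N)) (b, w))
        = kwN κ n w * ∑ b : Fin N, (if h : κ.1 ≤ n then kv κ.2 (fun k => w ⟨n - κ.1 + k, by omega⟩) b
          else 1 / (N : ℝ)) := by
          rw [Finset.mul_sum]
          exact Finset.sum_congr rfl fun b _ => hkey b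
      _ ≤ kwN κ n w * 1 := by
          refine mul_le_mul_of_nonneg_left ?_ (kwN_nonneg κ n w)
          by_cases hr : κ.1 ≤ n
          · simp only [dif_pos hr]
            exact kv_sum _ _
          · simp only [dif_neg hr]
            rw [Finset.sum_const, Finset.card_univ, Fintype.card_fin, nsmul_eq_mul]
            rw [mul_one_div]
            exact div_self_le_one _
      _ = kwN κ n w := mul_one _

theorem domN {N : ℕ} (hN : 1 ≤ N) (p : (n : ℕ) → (Fin n → Fin N) → ℝ) (hp0 : ∀ n w, 0 ≤ p n w)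
    (hp1 : ∀ n w, p n w ≤ 1)
    (hps : ∀ n w, p n w = ∑ b, p (n + 1) (Fin.snoc w b : Fin (n + 1) → Fin N))
    (hph : ∃ h : ℝ, 0 < h ∧ ∀ n (w : Fin (n + 1) → Fin N), h * p n (Fin.init w) ≤ p (n + 1) w)
    (hp00 : 0 < p 0 (fun k => k.elim0))
    (hcont : ∀ δ : ℝ, 0 < δ → ∃ r : ℕ, ∀ (n : ℕ) (w : Fin (n + (r + 1)) → Fin N),
      p (n + (r + 1)) w * p r (fun k => w ⟨n + k, by omega⟩) ≤
        (1 + δ) * (p (n + r) (fun k => w ⟨k, by omega⟩) * p (r + 1) (fun k => w ⟨n + k, by omega⟩)))
    (lam : ℝ) (hl0 : 0 < lam) (hl1 : lam < 1) :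
    ∃ (κ : KerN N) (C : ℝ), 1 ≤ C ∧ ∀ n w, p n w * lam ^ n ≤ C * kwN κ n w := by
  obtain ⟨h, hh0, hh⟩ := hph
  have hN0 : (0 : ℝ) < N := by exact_mod_cast hN
  have hN1 : (1 : ℝ) ≤ N := by exact_mod_cast hN
  -- positivity
  have hpos : ∀ n w, 0 < p n w := by
    intro n
    induction n with
    | zero =>
      intro w
      have : w = fun k => k.elim0 := funext fun k => k.elim0
      rw [this]
      exact hp00
    | succ n ih =>
      intro w
      exact lt_of_lt_of_le (mul_pos hh0 (ih _)) (hh n w)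
  obtain ⟨s, hs⟩ : ∃ s : ℝ, s = Real.sqrt lam := ⟨_, rfl⟩
  have hs0 : 0 < s := by rw [hs]; exact Real.sqrt_pos.2 hl0
  have hss : s * s = lam := by rw [hs]; exact Real.mul_self_sqrt hl0.le
  have hs1 : s < 1 := by nlinarith
  obtain ⟨r, hr⟩ := hcont (1 / s - 1) (by
    have : 1 < 1 / s := by rw [lt_div_iff₀ hs0]; linarith
    linarith)
  have hr' : ∀ (n : ℕ) (w : Fin (n + (r + 1)) → Fin N),
      p (n + (r + 1)) w * p r (fun k => w ⟨n + k, by omega⟩) * s ≤
        p (n + r) (fun k => w ⟨k, by omega⟩) * p (r + 1) (fun k => w ⟨n + k, by omega⟩) := by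
    intro n w
    have h1 := mul_le_mul_of_nonneg_right (hr n w) hs0.le
    refine h1.trans (le_of_eq ?_)
    have : (1 + (1 / s - 1)) * s = 1 := by
      field_simp
      ring
    calc _ = ((1 + (1 / s - 1)) * s) * (p (n + r) (fun k => w ⟨k, by omega⟩) *
          p (r + 1) (fun k => w ⟨n + k, by omega⟩)) := by ring
      _ = _ := by rw [this, one_mul]
  -- the kernel
  have hq : ∀ (v : Fin r → Fin N) (b : Fin N), ∃ q : ℚ,
      p (r + 1) (Fin.snoc v b : Fin (r + 1) → Fin N) / p r v * s < (q : ℝ) ∧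
        (q : ℝ) < p (r + 1) (Fin.snoc v b : Fin (r + 1) → Fin N) / p r v * s + (1 - s) / N := by
    intro v b
    refine exists_rat_btwn ?_
    have : 0 < (1 - s) / N := div_pos (by linarith) hN0
    linarith
  choose q hq1 hq2 using hq
  have hc0 : ∀ (v : Fin r → Fin N) (b : Fin N),
      0 ≤ p (r + 1) (Fin.snoc v b : Fin (r + 1) → Fin N) / p r v := fun v b =>
    div_nonneg (hp0 _ _) (hp0 _ _)
  have hcs : ∀ v : Fin r → Fin N,
      ∑ b, p (r + 1) (Fin.snoc v b : Fin (r + 1) → Fin N) / p r v = 1 := by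
    intro v
    rw [← Finset.sum_div, ← hps r v, div_self (hpos r v).ne']
  have hkv : ∀ v b, kv q v b = q v b := by
    intro v b
    unfold kv
    rw [if_pos]
    refine ⟨fun c => le_trans (mul_nonneg (hc0 v c) hs0.le) (hq1 v c).le, ?_⟩
    calc ∑ c, (q v c : ℝ)
        ≤ ∑ c, (p (r + 1) (Fin.snoc v c : Fin (r + 1) → Fin N) / p r v * s + (1 - s) / N) :=
          Finset.sum_le_sum fun c _ => (hq2 v c).le
      _ = 1 := by
          rw [Finset.sum_add_distrib, ← Finset.sum_mul, hcs v, Finset.sum_const, Finset.card_univ,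
            Fintype.card_fin, nsmul_eq_mul]
          field_simp
          ring
  obtain ⟨κ, hκ⟩ : ∃ κ : KerN N, κ = mkN r q := ⟨_, rfl⟩
  have key : ∀ n (w : Fin n → Fin N), p n w * lam ^ n ≤ (N : ℝ) ^ (min n r) * kwN κ n w := by
    intro n
    induction n with
    | zero =>
      intro w
      have : kwN κ 0 w = 1 := rfl
      rw [this, pow_zero, mul_one, Nat.zero_min, pow_zero, one_mul]
      exact hp1 _ _
    | succ n ih =>
      intro w
      have ihw := ih (Fin.init w)
      have hpl : 0 ≤ p n (Fin.init w) * lam ^ n := mul_nonneg (hp0 _ _) (pow_nonneg hl0.le _)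
      rcases Nat.lt_or_ge n r with hn | hn
      · have e1 : kwN κ (n + 1) w = kwN κ n (Fin.init w) * (1 / (N : ℝ)) := by
          rw [hκ, kwN_mk, dif_neg (not_le.2 hn)]
        have e2 : p (n + 1) w ≤ p n (Fin.init w) := by
          rw [hps n (Fin.init w)]
          have h4 : (Fin.snoc (Fin.init w) (w (Fin.last n)) : Fin (n + 1) → Fin N) = w :=
            Fin.snoc_init_self w
          have h5 := Finset.single_le_sum (s := Finset.univ)
            (f := fun b => p (n + 1) (Fin.snoc (Fin.init w) b : Fin (n + 1) → Fin N))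
            (fun b _ => hp0 _ _) (Finset.mem_univ (w (Fin.last n)))
          simp only [h4] at h5
          exact h5
        rw [min_eq_left hn.le] at ihw
        rw [e1, min_eq_left (by omega : n + 1 ≤ r)]
        calc p (n + 1) w * lam ^ (n + 1) ≤ p n (Fin.init w) * lam ^ n := by
              have h5 : lam ^ (n + 1) ≤ lam ^ n := by
                rw [pow_succ]
                exact mul_le_of_le_one_right (pow_nonneg hl0.le _) hl1.le
              exact mul_le_mul e2 h5 (pow_nonneg hl0.le _) (hp0 _ _)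
          _ ≤ (N : ℝ) ^ n * kwN κ n (Fin.init w) := ihw
          _ = (N : ℝ) ^ (n + 1) * (kwN κ n (Fin.init w) * (1 / (N : ℝ))) := by
              field_simp
              ring
      · obtain ⟨m, rfl⟩ : ∃ m, n = m + r := ⟨n - r, by omega⟩
        obtain ⟨v, hv⟩ : ∃ v : Fin r → Fin N, v = fun k : Fin r => w ⟨m + k, by omega⟩ := ⟨_, rfl⟩
        obtain ⟨b, hb⟩ : ∃ b : Fin N, b = w (Fin.last (m + r)) := ⟨_, rfl⟩
        have e1 : kwN κ (m + r + 1) w = kwN κ (m + r) (Fin.init w) * q v b := by
          subst hκ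
          rw [kwN_mk, dif_pos (show r ≤ m + r by omega)]
          have hctx' : (fun k : Fin r => w ⟨m + r - r + k, by omega⟩) = v := by
            rw [hv]
            funext k
            congr 2
            omega
          have hcl : kv q (fun k : Fin r => w ⟨m + r - r + k, by omega⟩) (w (Fin.last (m + r))) =
              (q v b : ℝ) := by
            rw [hctx', ← hb]
            exact hkv v b
          exact congrArg _ hcl
        have hc := hr' m w
        have e2 : (fun k : Fin (r + 1) => w ⟨m + k, by omega⟩) =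
            (Fin.snoc v b : Fin (r + 1) → Fin N) := by
          funext k
          refine Fin.lastCases ?_ (fun i => ?_) k
          · rw [Fin.snoc_last, hb]
            rfl
          · rw [Fin.snoc_castSucc, hv]
            rfl
        have e3 : (fun k : Fin (m + r) => w ⟨k, by omega⟩) = Fin.init w := rfl
        rw [e2, e3] at hc
        have hc' : p (m + r + 1) w * p r v * s ≤
            p (m + r) (Fin.init w) * p (r + 1) (Fin.snoc v b : Fin (r + 1) → Fin N) := by
          rw [hv]
          rw [hv] at hc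
          exact hc
        have hcb : p (r + 1) (Fin.snoc v b : Fin (r + 1) → Fin N) / p r v * s ≤ q v b :=
          (hq1 v b).le
        have hpv := hpos r v
        have e4 : p (m + r + 1) w * lam ≤ p (m + r) (Fin.init w) * q v b := by
          have h7 : p (m + r + 1) w * s ≤
              p (m + r) (Fin.init w) *
                (p (r + 1) (Fin.snoc v b : Fin (r + 1) → Fin N) / p r v) := by
            rw [← mul_div_assoc, le_div_iff₀ hpv]
            linarith
          calc p (m + r + 1) w * lam = (p (m + r + 1) w * s) * s := by rw [← hss]; ring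
            _ ≤ (p (m + r) (Fin.init w) *
                (p (r + 1) (Fin.snoc v b : Fin (r + 1) → Fin N) / p r v)) * s :=
                mul_le_mul_of_nonneg_right h7 hs0.le
            _ = p (m + r) (Fin.init w) *
                (p (r + 1) (Fin.snoc v b : Fin (r + 1) → Fin N) / p r v * s) := by ring
            _ ≤ p (m + r) (Fin.init w) * q v b := mul_le_mul_of_nonneg_left hcb (hp0 _ _)
        have hQ0 : (0 : ℝ) ≤ q v b := le_trans (mul_nonneg (hc0 v b) hs0.le) hcb
        rw [min_eq_right hn] at ihw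
        rw [e1, min_eq_right (by omega : r ≤ m + r + 1)]
        calc p (m + r + 1) w * lam ^ (m + r + 1) = (p (m + r + 1) w * lam) * lam ^ (m + r) := by
              rw [pow_succ]; ring
          _ ≤ (p (m + r) (Fin.init w) * q v b) * lam ^ (m + r) :=
              mul_le_mul_of_nonneg_right e4 (pow_nonneg hl0.le _)
          _ = (p (m + r) (Fin.init w) * lam ^ (m + r)) * q v b := by ring
          _ ≤ ((N : ℝ) ^ r * kwN κ (m + r) (Fin.init w)) * q v b :=
              mul_le_mul_of_nonneg_right ihw hQ0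
          _ = (N : ℝ) ^ r * (kwN κ (m + r) (Fin.init w) * q v b) := by ring
  refine ⟨κ, (N : ℝ) ^ r, one_le_pow₀ hN1, fun n w => (key n w).trans ?_⟩
  exact mul_le_mul_of_nonneg_right (pow_le_pow_right₀ hN1 (min_le_right _ _))
    (kwN_nonneg κ n w)

/-! ## Lumping -/

open Classical in
/-- the weights of the words after lumping the symbols by `g` -/
noncomputable def lump {N n : ℕ} (g : Fin N → Bool) (R : (Fin n → Fin N) → ℝ)
    (w' : Fin n → Bool) : ℝ :=
  ∑ w : Fin n → Fin N, if (∀ k, g (w k) = w' k) then R w else 0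

theorem lump_nonneg {N n : ℕ} (g : Fin N → Bool) (R : (Fin n → Fin N) → ℝ) (hR : ∀ w, 0 ≤ R w)
    (w' : Fin n → Bool) : 0 ≤ lump g R w' := by
  unfold lump
  refine Finset.sum_nonneg fun w _ => ?_
  split_ifs
  · exact hR w
  · exact le_rfl

theorem lump_sum {N n : ℕ} (g : Fin N → Bool) (R : (Fin n → Fin N) → ℝ) :
    ∑ w', lump g R w' = ∑ w, R w := by
  classical
  unfold lump
  rw [Finset.sum_comm]
  refine Finset.sum_congr rfl fun w _ => ?_
  rw [Finset.sum_eq_single (fun k => g (w k))]
  · simp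
  · intro w' _ hne
    rw [if_neg]
    intro h
    exact hne (funext fun k => (h k).symm)
  · simp

theorem lump_mono {N n : ℕ} (g : Fin N → Bool) (R R' : (Fin n → Fin N) → ℝ) (a c : ℝ)
    (h : ∀ w, R w * a ≤ c * R' w) (w' : Fin n → Bool) :
    lump g R w' * a ≤ c * lump g R' w' := by
  unfold lump
  rw [Finset.sum_mul, Finset.mul_sum]
  refine Finset.sum_le_sum fun w _ => ?_
  split_ifs
  · exact h w
  · simp

end Pool.Agent.Y782.FF
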