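import Pool.Agent.Y782.FF.Trunc

set_option autoImplicit false
open MeasureTheory
open scoped ENNReal

namespace Pool.Agent.Y782.FF

variable {d k : ℕ}

/-- Block codes of measurable countable-valued fields are measurable. -/
lemma measurable_of_local {α : Type} [MeasurableSpace α] (g : (V d → ℕ) → α) (B : Finset (V d))
    (hloc : ∀ T T' : V d → ℕ, (∀ w ∈ B, T w = T' w) → g T = g T')
    (F : Om d → V d → ℕ) (hF : ∀ w, Measurable fun y => F y w) :
    Measurable fun y => g (F y) := by
  classical
  have h1 : Measurable (fun y : Om d => fun w : B => F y (w : V d)) :=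
    measurable_pi_lambda _ fun w => hF w
  have h2 : Measurable (fun r : B → ℕ => g (fun u => if h : u ∈ B then r ⟨u, h⟩ else 0)) :=
    measurable_of_countable _
  have h3 : (fun y => g (F y)) = (fun r : B → ℕ => g (fun u => if h : u ∈ B then r ⟨u, h⟩ else 0)) ∘
      (fun y : Om d => fun w : B => F y (w : V d)) := by
    funext y
    apply hloc
    intro w hw
    simp only [dif_pos hw]
  rw [h3]
  exact h2.comp h1

lemma measurable_st (D q j : ℕ) (v : V d) : Measurable fun y : Om d => st D q (lam D y) j v := by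
  classical
  induction j generalizing v with
  | zero => exact measurable_const
  | succ j ih =>
    set S : Set (Om d) := {y | lam D y v = some j} ∩ ⋂ w ∈ bx d D,
      (fun y : Om d => st D q (lam D y) j (v + w)) ⁻¹' {0} with hS
    have hSm : MeasurableSet S := (measurableSet_lam D v j).inter
      (Finset.measurableSet_biInter _ fun w _ => ih (v + w) (measurableSet_singleton 0))
    have hmem : ∀ y, y ∈ S ↔ (lam D y v = some j ∧ ∀ w ∈ bx d D, st D q (lam D y) j (v + w) = 0) := by
      intro y
      rw [hS]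
      simp only [Set.mem_inter_iff, Set.mem_iInter, Set.mem_preimage, Set.mem_singleton_iff]
      rfl
    have hpk : Measurable fun y : Om d => pk (adm D q (fun w => st D q (lam D y) j (v + w))) := by
      refine measurable_of_local (fun T => pk (adm D q T)) (bx d (4 * D)) ?_
        (fun y w => st D q (lam D y) j (v + w)) (fun w => ih (v + w))
      intro T T' h
      have : adm D q T = adm D q T' := by
        funext c
        unfold adm
        apply propext
        constructor
        · rintro ⟨a, b, e⟩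
          exact ⟨a, b, fun w hw => by rw [← h w hw]; exact e w hw⟩
        · rintro ⟨a, b, e⟩
          exact ⟨a, b, fun w hw => by rw [h w hw]; exact e w hw⟩
      show pk (adm D q T) = pk (adm D q T')
      rw [this]
    have h3 : (fun y : Om d => st D q (lam D y) (j + 1) v) = fun y => if y ∈ S then
        pk (adm D q (fun w => st D q (lam D y) j (v + w))) else st D q (lam D y) j v := by
      funext y
      by_cases hy : y ∈ S
      · rw [if_pos hy, st_succ_pos ((hmem y).1 hy)]
      · rw [if_neg hy, st_succ_neg (fun h => hy ((hmem y).2 h))]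
    rw [h3]
    exact Measurable.ite hSm hpk (ih v)

lemma measurable_ctr (D q : ℕ) (v : V d) : Measurable fun y : Om d => ctr D q (lam D y) v := by
  classical
  refine measurable_to_countable' fun c => ?_
  have : (fun y : Om d => ctr D q (lam D y) v) ⁻¹' {c} =
      (⋃ i : ℕ, ({y | lam D y v = some i} ∩
        (fun y : Om d => st D q (lam D y) (i + 1) v) ⁻¹' {c})) ∪
      ((⋂ i : ℕ, {y | lam D y v = some i}ᶜ) ∩ {_y | 0 = c}) := by
    ext y
    simp only [Set.mem_preimage, Set.mem_singleton_iff, Set.mem_union, Set.mem_iUnion,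
      Set.mem_inter_iff, Set.mem_iInter, Set.mem_compl_iff]
    rcases h : lam D y v with _ | i
    · rw [ctr_none h]
      constructor
      · intro h0
        right
        refine ⟨fun i hi => ?_, h0⟩
        have hi' : lam D y v = some i := hi
        rw [h] at hi'
        exact absurd hi' (by simp)
      · rintro (⟨i, hi, -⟩ | ⟨-, h0⟩)
        · have hi' : lam D y v = some i := hi
          rw [h] at hi'
          exact absurd hi' (by simp)
        · exact h0
    · rw [ctr_eq h (Nat.lt_succ_self i)]
      constructor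
      · intro h0
        left
        exact ⟨i, h, h0⟩
      · rintro (⟨i', hi', h0⟩ | ⟨h0, -⟩)
        · have hi'' : lam D y v = some i' := hi'
          rw [h] at hi''
          have := Option.some.inj hi''
          subst this
          exact h0
        · exact absurd h (h0 i)
  rw [this]
  refine MeasurableSet.union (MeasurableSet.iUnion fun i => (measurableSet_lam D v i).inter
    (measurable_st D q (i + 1) v (measurableSet_singleton c))) ?_
  exact (MeasurableSet.iInter fun i => (measurableSet_lam D v i).compl).inter (MeasurableSet.const _)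

/-- The new rule. -/
noncomputable def gg (f : Om d → V d → Fin k) (a0 : Fin k) (L : ℕ) (E : Set (Om d)) (D q : ℕ)
    (y : Om d) (v : V d) : Fin k :=
  fL f a0 L (sh v (zs E D q (ctr D q (lam D y))))

lemma gg_sh (f : Om d → V d → Fin k) (a0 : Fin k) (L : ℕ) (E : Set (Om d)) (D q : ℕ)
    (y : Om d) (v : V d) :
    gg f a0 L E D q (sh v y) = fun u => gg f a0 L E D q y (u + v) := by
  funext u
  unfold gg
  rw [lam_sh, ctr_sh, zs_sh, sh_sh]

lemma block_local (f : Om d → V d → Fin k) (a0 : Fin k) (L : ℕ) (E : Set (Om d)) (D q : ℕ)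
    (v : V d) (T T' : V d → ℕ) (h : ∀ w ∈ bx d (L + 4 * D * q), T (v + w) = T' (v + w)) :
    fL f a0 L (sh v (zs E D q T)) = fL f a0 L (sh v (zs E D q T')) := by
  apply fL_local
  intro u hu
  rw [sh_apply, sh_apply]
  apply zs_local
  intro w hw
  rw [show u + v + w = v + (u + w) by abel]
  exact h _ (bx_add hu hw)

lemma measurable_gg (f : Om d → V d → Fin k) (a0 : Fin k) (L : ℕ) (E : Set (Om d)) (D q : ℕ) :
    Measurable (gg f a0 L E D q) := by
  classical
  refine measurable_pi_lambda _ fun v => ?_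
  refine measurable_of_local (fun T => fL f a0 L (sh v (zs E D q T)))
    ((bx d (L + 4 * D * q)).map (addLeftEmbedding v)) ?_ (fun y => ctr D q (lam D y))
    (fun w => measurable_ctr D q w)
  intro T T' h
  apply block_local
  intro w hw
  apply h
  rw [Finset.mem_map]
  exact ⟨w, hw, rfl⟩

/-- The new rule is locally determined when the levels are small. -/
lemma gg_det (f : Om d → V d → Fin k) (a0 : Fin k) (L : ℕ) (E : Set (Om d)) (D q r : ℕ)
    (y y' : Om d) (hP : ∀ v ∈ bx d (L + 4 * D * q), Pl D r y v)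
    (h : ∀ u ∈ bx d (L + 4 * D * q + 8 * D * (NN d D * (r + 1))), y' u = y u) :
    gg f a0 L E D q y' 0 = gg f a0 L E D q y 0 := by
  unfold gg
  apply block_local
  intro v hv
  rw [zero_add]
  obtain ⟨i, hi, hlt⟩ := lam_le_of_Pl (hP v hv)
  symm
  refine ctr_local D q (lam D y) (lam D y') (NN d D * (r + 1)) v hlt hi ?_
  intro u hu j hj
  apply lam_local
  intro x hx
  symm
  apply h
  have h1 : x ∈ bx d (4 * D * (NN d D * (r + 1))) := bx_mono (Nat.mul_le_mul_left _ (by omega)) hx
  refine bx_mono ?_ (bx_add (bx_add hv hu) h1)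
  have : 8 * D * (NN d D * (r + 1)) = 4 * D * (NN d D * (r + 1)) + 4 * D * (NN d D * (r + 1)) := by
    ring
  omega

/-- Main theorem: superpolynomial decay of the coding radius upgrades to tower decay. -/
theorem main (d k : ℕ) (F : Finset (V d)) (A : Set (F → Fin k))
    (f : Om d → V d → Fin k) (hf : Measurable f)
    (hsh : ∀ (y : Om d) (v : V d), f (fun u => y (u + v)) = fun u => f y (u + v))
    (hA : ∀ᵐ y ∂(mu d), ∀ v : V d, (fun u : F => f y ((u : V d) + v)) ∈ A)
    (hmom : ∀ p : ℕ, ∫⁻ y, (⨅ (r : ℕ) (_ : ∀ y' : (Fin d → ℤ) → unitInterval,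
                    (∀ u : Fin d → ℤ, (∀ i, |u i| ≤ (r : ℤ)) → y' u = y u) →
                      f y' 0 = f y 0), (r : ℝ≥0∞)) ^ p ∂(mu d) < ⊤) :
    ∃ g : Om d → V d → Fin k, Measurable g ∧
      (∀ (y : Om d) (v : V d), g (fun u => y (u + v)) = fun u => g y (u + v)) ∧
      (∀ᵐ y ∂(mu d), ∀ v : V d, (fun u : F => g y ((u : V d) + v)) ∈ A) ∧
      ∃ K : ℕ, 1 ≤ K ∧ ∃ r₀ : ℕ, ∀ r : ℕ, r₀ ≤ r →
        (mu d) {y | ¬ (∀ y' : V d → unitInterval,
          (∀ u : V d, (∀ i, |u i| ≤ ((K * r : ℕ) : ℤ)) → y' u = y u) → g y' 0 = g y 0)}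
          ≤ 1 / ((Nat.iterate (fun n : ℕ => 2 ^ n) r 1 : ℕ) : ℝ≥0∞) := by
  classical
  set a0 : Fin k := f (fun _ => 0) 0 with ha0
  -- a bound for the window
  obtain ⟨b, hb⟩ : ∃ b : ℕ, ∀ u ∈ F, u ∈ bx d b := by
    refine ⟨∑ u ∈ F, ∑ i, (u i).natAbs, fun u hu => ?_⟩
    rw [mem_bx]
    intro i
    have h1 : (u i).natAbs ≤ ∑ i, (u i).natAbs :=
      Finset.single_le_sum (f := fun i => (u i).natAbs) (fun _ _ => Nat.zero_le _)
        (Finset.mem_univ i)
    have h2 : ∑ i, (u i).natAbs ≤ ∑ u ∈ F, ∑ i, (u i).natAbs :=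
      Finset.single_le_sum (f := fun u : V d => ∑ i, (u i).natAbs) (fun _ _ => Nat.zero_le _) hu
    have h3 : |u i| = ((u i).natAbs : ℤ) := Int.abs_eq_natAbs (u i)
    rw [h3]
    exact_mod_cast h1.trans h2
  set q : ℕ := 8 ^ d with hq
  obtain ⟨L, hL⟩ := exists_scale hf a0 F A b hsh hA q (d * q + 1) rfl (hmom _)
  set D : ℕ := L + b with hD
  set E := EE f a0 F A L with hE
  have hEm : MeasurableSet E := measurableSet_EE hf a0 F A L
  have hEl : Loc D E := loc_EE f a0 F A L hb
  set Q : ℕ := L + 4 * D * q with hQ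
  refine ⟨gg f a0 L E D q, measurable_gg f a0 L E D q, fun y v => gg_sh f a0 L E D q y v, ?_,
    Q + 16 * D * NN d D + 1, by omega, ?_⟩
  · filter_upwards [ae_Lab (d := d) D] with y hy v
    have hG := ctr_good (q := q) le_rfl hy
    have h1 := zs_avoids hEm hEl le_rfl hL hG v
    rw [hE] at h1
    have h2 : ¬ ¬ ((fun u : F => fL f a0 L (sh (u : V d) (sh v (zs E D q (ctr D q (lam D y)))))) ∈ A) :=
      h1
    rw [not_not] at h2
    have h3 : (fun u : F => gg f a0 L E D q y ((u : V d) + v)) =
        (fun u : F => fL f a0 L (sh (u : V d) (sh v (zs E D q (ctr D q (lam D y)))))) := by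
      funext u
      unfold gg
      rw [sh_sh]
    rw [h3]
    exact h2
  · obtain ⟨r0, hr0⟩ := tail_num ((bx d Q).card * (WW d D).card)
    refine ⟨r0 + 1, fun r hr => ?_⟩
    obtain ⟨n, rfl⟩ : ∃ n, r = n + 1 := ⟨r - 1, by omega⟩
    have hsub : {y : Om d | ¬ (∀ y' : V d → unitInterval,
          (∀ u : V d, (∀ i, |u i| ≤ (((Q + 16 * D * NN d D + 1) * (n + 1) : ℕ) : ℤ)) → y' u = y u) →
            gg f a0 L E D q y' 0 = gg f a0 L E D q y 0)} ⊆
        ⋃ v ∈ bx d Q, {y : Om d | ¬ Pl D (n + 1) y v} := by
      intro y hy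
      by_contra hcon
      apply hy
      intro y' hy'
      refine gg_det f a0 L E D q (n + 1) y y' ?_ ?_
      · intro v hv
        by_contra hP
        apply hcon
        simp only [Set.mem_iUnion]
        exact ⟨v, hv, hP⟩
      · intro u hu
        apply hy'
        rw [← mem_bx]
        refine bx_mono ?_ hu
        have h1 : 8 * D * (NN d D * (n + 1 + 1)) ≤ 16 * D * NN d D * (n + 1) := by
          have : 8 * D * (NN d D * (n + 1 + 1)) = 8 * D * NN d D * (n + 2) := by ring
          rw [this]
          have h2 : 16 * D * NN d D * (n + 1) = 8 * D * NN d D * (2 * (n + 1)) := by ring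
          rw [h2]
          exact Nat.mul_le_mul_left _ (by omega)
        have h3 : Q ≤ Q * (n + 1) := Nat.le_mul_of_pos_right _ (Nat.succ_pos n)
        have h4 : (Q + 16 * D * NN d D + 1) * (n + 1) =
            Q * (n + 1) + 16 * D * NN d D * (n + 1) + (n + 1) := by ring
        rw [h4]
        show L + 4 * D * q + 8 * D * (NN d D * (n + 1 + 1)) ≤ _
        rw [← hQ]
        omega
    refine (measure_mono hsub).trans ((measure_biUnion_finset_le _ _).trans ?_)
    have h5 := hr0 (n + 1) (by omega)
    refine le_trans ?_ h5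
    calc ∑ v ∈ bx d Q, mu d {y : Om d | ¬ Pl D (n + 1) y v}
        ≤ ∑ _v ∈ bx d Q, ((WW d D).card : ℝ≥0∞) * ((n + 2 : ℕ) : ℝ≥0∞) *
            (2 * (2⁻¹ : ℝ≥0∞) ^ (TT (n + 1) - 1)) :=
          Finset.sum_le_sum fun v _ => notPl_bound D n v
      _ = _ := by
          rw [Finset.sum_const, nsmul_eq_mul]
          push_cast
          ring

end Pool.Agent.Y782.FF
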