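import Pool.Agent.Y782.FF.Centers

set_option autoImplicit false
open MeasureTheory
open scoped ENNReal

namespace Pool.Agent.Y782.FF

/-! ### The Cole–Vishkin step on natural numbers -/

lemma cv_ex (a b : ℕ) : ∃ i, a.testBit i ≠ b.testBit i ∨ a = b := by
  by_cases h : a = b
  · exact ⟨0, Or.inr h⟩
  · by_contra hcon
    push Not at hcon
    exact h (Nat.eq_of_testBit_eq fun i => (hcon i).1)

open Classical in
/-- index of the first differing bit (`0` if equal) -/
noncomputable def cvi (a b : ℕ) : ℕ := Nat.find (cv_ex a b)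

/-- The Cole–Vishkin step. -/
noncomputable def cv (a b : ℕ) : ℕ := 2 * cvi a b + (if a.testBit (cvi a b) then 1 else 0)

lemma cvi_spec {a b : ℕ} (h : a ≠ b) : a.testBit (cvi a b) ≠ b.testBit (cvi a b) := by
  classical
  rcases Nat.find_spec (cv_ex a b) with h2 | h2
  · exact h2
  · exact absurd h2 h

lemma cv_ne {a b c : ℕ} (hab : a ≠ b) : cv a b ≠ cv b c := by
  intro h
  unfold cv at h
  have h1 : cvi a b = cvi b c := by split_ifs at h <;> omega
  rw [← h1] at h
  have h2 := cvi_spec hab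
  by_cases ha : a.testBit (cvi a b) = true
  · have hb : ¬ b.testBit (cvi a b) = true := by
      intro hb; exact h2 (by rw [ha, hb])
    rw [if_pos ha, if_neg hb] at h
    omega
  · have hb : b.testBit (cvi a b) = true := by
      by_contra hb
      apply h2
      simp only [Bool.not_eq_true] at ha hb
      rw [ha, hb]
    rw [if_neg ha, if_pos hb] at h
    omega

lemma cvi_lt {a b k : ℕ} (hk : 1 ≤ k) (ha : a < 2 ^ k) (hb : b < 2 ^ k) : cvi a b < k := by
  classical
  by_cases h : a = b
  · have : cvi a b = 0 := by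
      unfold cvi
      rw [Nat.find_eq_zero]
      exact Or.inr h
    omega
  · by_contra hcon
    push Not at hcon
    have h2 := cvi_spec h
    apply h2
    have hp : 2 ^ k ≤ 2 ^ cvi a b := Nat.pow_le_pow_right (by norm_num) hcon
    rw [Nat.testBit_lt_two_pow (ha.trans_le hp), Nat.testBit_lt_two_pow (hb.trans_le hp)]

lemma cv_lt {a b k : ℕ} (hk : 1 ≤ k) (ha : a < 2 ^ k) (hb : b < 2 ^ k) : cv a b < 2 * k := by
  have := cvi_lt hk ha hb
  unfold cv
  split_ifs <;> omega

/-! ### The first step, on real labels -/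

/-- dyadic approximations -/
noncomputable def dg (n : ℕ) (x : unitInterval) : ℕ := ⌊(2 : ℝ) ^ n * (x : ℝ)⌋₊

lemma dg_close {n : ℕ} {x x' : unitInterval} (h : dg n x = dg n x') :
    |(x : ℝ) - x'| ≤ (1 / 2) ^ n := by
  unfold dg at h
  have hx : 0 ≤ (2 : ℝ) ^ n * (x : ℝ) := mul_nonneg (by positivity) x.2.1
  have hx' : 0 ≤ (2 : ℝ) ^ n * (x' : ℝ) := mul_nonneg (by positivity) x'.2.1
  have h1 := Nat.floor_le hx
  have h2 := Nat.lt_floor_add_one ((2 : ℝ) ^ n * (x : ℝ))
  have h3 := Nat.floor_le hx'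
  have h4 := Nat.lt_floor_add_one ((2 : ℝ) ^ n * (x' : ℝ))
  rw [h] at h1 h2
  have hp : (0 : ℝ) < 2 ^ n := by positivity
  have h5 : (2 : ℝ) ^ n * |(x : ℝ) - x'| ≤ 1 := by
    rw [show (2 : ℝ) ^ n * |(x : ℝ) - x'| = |(2 : ℝ) ^ n * ((x : ℝ) - x')| by
      rw [abs_mul, abs_of_pos hp], mul_sub, abs_le]
    constructor <;> linarith
  rw [one_div, inv_pow, ← one_div, le_div_iff₀ hp]
  linarith

lemma dg_succ_half (n : ℕ) (x : unitInterval) : dg (n + 1) x / 2 = dg n x := by
  unfold dg
  have : (2 : ℝ) ^ n * (x : ℝ) = ((2 : ℝ) ^ (n + 1) * (x : ℝ)) / (2 : ℕ) := by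
    push_cast
    rw [pow_succ]; ring
  rw [this, Nat.floor_div_natCast]

lemma dg_zero_le (x : unitInterval) : dg 0 x ≤ 1 := by
  unfold dg
  rw [pow_zero, one_mul]
  have h : (x : ℝ) ≤ 1 := x.2.2
  calc ⌊(x : ℝ)⌋₊ ≤ ⌊(1 : ℝ)⌋₊ := Nat.floor_mono h
    _ = 1 := Nat.floor_one

lemma fd_ex (x x' : unitInterval) : ∃ n, dg n x ≠ dg n x' ∨ x = x' := by
  by_cases h : x = x'
  · exact ⟨0, Or.inr h⟩
  · by_contra hcon
    push Not at hcon
    apply h
    have hall : ∀ n : ℕ, |(x : ℝ) - x'| ≤ (1 / 2) ^ n := fun n => dg_close (hcon n).1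
    have hz : |(x : ℝ) - x'| ≤ 0 :=
      ge_of_tendsto' (tendsto_pow_atTop_nhds_zero_of_lt_one (by norm_num) (by norm_num)) hall
    have := abs_eq_zero.1 (le_antisymm hz (abs_nonneg _))
    exact Subtype.ext (by linarith)

/-- first index where the dyadic approximations differ (`0` if the points are equal) -/
noncomputable def fdi (x x' : unitInterval) : ℕ := sInf {n | dg n x ≠ dg n x' ∨ x = x'}

/-- first label -/
noncomputable def fd (x x' : unitInterval) : ℕ := 2 * fdi x x' + dg (fdi x x') x % 2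

lemma fdi_mem (x x' : unitInterval) : dg (fdi x x') x ≠ dg (fdi x x') x' ∨ x = x' :=
  Nat.sInf_mem (s := {n | dg n x ≠ dg n x' ∨ x = x'}) (fd_ex x x')

lemma fdi_spec {x x' : unitInterval} (h : x ≠ x') : dg (fdi x x') x ≠ dg (fdi x x') x' := by
  rcases fdi_mem x x' with h2 | h2
  · exact h2
  · exact absurd h2 h

lemma fdi_min' {x x' : unitInterval} {n : ℕ} (h : n < fdi x x') :
    ¬ (dg n x ≠ dg n x' ∨ x = x') := Nat.notMem_of_lt_sInf h

lemma fdi_min {x x' : unitInterval} {n : ℕ} (h : n < fdi x x') : dg n x = dg n x' := by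
  have := fdi_min' h
  push Not at this
  exact this.1

lemma fdi_eq_iff (x x' : unitInterval) (k : ℕ) : fdi x x' = k ↔
    (dg k x ≠ dg k x' ∨ x = x') ∧ ∀ n < k, ¬ (dg n x ≠ dg n x' ∨ x = x') := by
  constructor
  · rintro rfl
    exact ⟨fdi_mem x x', fun n hn => fdi_min' hn⟩
  · rintro ⟨h1, h2⟩
    apply le_antisymm
    · exact Nat.sInf_le h1
    · by_contra hlt
      push Not at hlt
      exact h2 _ hlt (fdi_mem x x')

lemma fd_ne {x y z : unitInterval} (hxy : x ≠ y) : fd x y ≠ fd y z := by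
  intro h
  unfold fd at h
  have h1 : fdi x y = fdi y z := by omega
  rw [← h1] at h
  have hpar : dg (fdi x y) x % 2 = dg (fdi x y) y % 2 := by omega
  have hne := fdi_spec hxy
  apply hne
  rcases hi : fdi x y with _ | n
  · rw [hi] at hpar
    have := dg_zero_le x
    have := dg_zero_le y
    omega
  · rw [hi] at hpar
    have h2 := fdi_min (x := x) (x' := y) (n := n) (by omega)
    have h3 := dg_succ_half n x
    have h4 := dg_succ_half n y
    omega

lemma fd_large {x x' : unitInterval} {m : ℕ} (h : 2 * (m + 1) ≤ fd x x') :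
    |(x : ℝ) - x'| ≤ (1 / 2) ^ m := by
  unfold fd at h
  have h1 : dg (fdi x x') x % 2 < 2 := Nat.mod_lt _ (by norm_num)
  exact dg_close (fdi_min (by omega))

lemma measurable_dg (n : ℕ) : Measurable (dg n) := by
  unfold dg
  exact Nat.measurable_floor.comp (measurable_subtype_coe.const_mul _)

lemma measurable_fdi : Measurable (fun p : unitInterval × unitInterval => fdi p.1 p.2) := by
  have hp : ∀ n, MeasurableSet {p : unitInterval × unitInterval | dg n p.1 ≠ dg n p.2 ∨ p.1 = p.2} := by
    intro n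
    apply MeasurableSet.union
    · exact (measurableSet_eq_fun ((measurable_dg n).comp measurable_fst)
        ((measurable_dg n).comp measurable_snd)).compl
    · exact measurableSet_eq_fun measurable_fst measurable_snd
  refine measurable_to_countable' fun k => ?_
  have : (fun p : unitInterval × unitInterval => fdi p.1 p.2) ⁻¹' {k} =
      {p : unitInterval × unitInterval | dg k p.1 ≠ dg k p.2 ∨ p.1 = p.2} ∩
      ⋂ n : ℕ, ⋂ _ : n < k,
        {p : unitInterval × unitInterval | dg n p.1 ≠ dg n p.2 ∨ p.1 = p.2}ᶜ := by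
    ext p
    simp only [Set.mem_preimage, Set.mem_singleton_iff, Set.mem_inter_iff, Set.mem_iInter,
      Set.mem_compl_iff]
    exact fdi_eq_iff p.1 p.2 k
  rw [this]
  exact (hp k).inter (MeasurableSet.iInter fun n => MeasurableSet.iInter fun _ => (hp n).compl)

lemma measurable_fd : Measurable (fun p : unitInterval × unitInterval => fd p.1 p.2) := by
  have h1 : Measurable (fun q : ℕ × (unitInterval × unitInterval) => 2 * q.1 + dg q.1 q.2.1 % 2) := by
    refine measurable_from_prod_countable_right fun n => ?_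
    exact (measurable_of_countable (fun t : ℕ => 2 * n + t % 2)).comp
      ((measurable_dg n).comp measurable_fst)
  exact h1.comp (measurable_fdi.prodMk measurable_id)

end Pool.Agent.Y782.FF
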