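import Pool.Agent.Y782.FF.Rounds

set_option autoImplicit false
open MeasureTheory
open scoped ENNReal

namespace Pool.Agent.Y782.FF

variable {d : ℕ}

/-- Packing bound. -/
lemma packing (D : ℕ) (T : Finset (V d)) (hT : ∀ w ∈ T, w ∈ bx d (4 * D))
    (hsep : ∀ w ∈ T, ∀ w' ∈ T, w ≠ w' → w - w' ∉ bx d D) : T.card ≤ 8 ^ d := by
  classical
  have hcard : (Fintype.piFinset fun _ : Fin d => Finset.Ico (0 : ℤ) 8).card = 8 ^ d := by
    rw [Fintype.card_piFinset]; simp
  rw [← hcard]
  refine Finset.card_le_card_of_injOn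
    (fun w => fun i => (w i + 4 * (D : ℤ)) / ((D : ℤ) + 1)) ?_ ?_
  · intro w hw
    have h := mem_bx.1 (hT w hw)
    rw [Finset.mem_coe, Fintype.mem_piFinset]
    intro i
    rw [Finset.mem_Ico]
    have hi := abs_le.1 (h i)
    push_cast at hi
    have hD : (0 : ℤ) < (D : ℤ) + 1 := by positivity
    constructor
    · apply Int.ediv_nonneg <;> omega
    · apply Int.ediv_lt_of_lt_mul hD
      omega
  · intro w hw w' hw' heq
    by_contra hne
    apply hsep w hw w' hw' hne
    rw [mem_bx]
    intro i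
    have hi : (w i + 4 * (D : ℤ)) / ((D : ℤ) + 1) = (w' i + 4 * (D : ℤ)) / ((D : ℤ) + 1) :=
      congrFun heq i
    have hD : (0 : ℤ) < (D : ℤ) + 1 := by positivity
    have h1 := Int.emod_add_mul_ediv (w i + 4 * (D : ℤ)) ((D : ℤ) + 1)
    have h2 := Int.emod_add_mul_ediv (w' i + 4 * (D : ℤ)) ((D : ℤ) + 1)
    have h3 := Int.emod_nonneg (w i + 4 * (D : ℤ)) hD.ne'
    have h4 := Int.emod_nonneg (w' i + 4 * (D : ℤ)) hD.ne'
    have h5 := Int.emod_lt_of_pos (w i + 4 * (D : ℤ)) hD
    have h6 := Int.emod_lt_of_pos (w' i + 4 * (D : ℤ)) hD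
    rw [hi] at h1
    simp only [Pi.sub_apply]
    rw [abs_le]
    constructor <;> linarith

open Classical in
noncomputable def pk (P : ℕ → Prop) : ℕ := if h : ∃ c, P c then h.choose else 1

lemma pk_spec {P : ℕ → Prop} (h : ∃ c, P c) : P (pk P) := by
  unfold pk; rw [dif_pos h]; exact h.choose_spec

/-- Admissible colours. -/
def adm (D q : ℕ) (T : V d → ℕ) (c : ℕ) : Prop := 1 ≤ c ∧ c ≤ q ∧ ∀ w ∈ bx d (4 * D), T w ≠ c

lemma pk_pos (D q : ℕ) (T : V d → ℕ) : pk (adm D q T) ≠ 0 := by
  by_cases h : ∃ c, adm D q T c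
  · have := (pk_spec h).1
    omega
  · unfold pk; rw [dif_neg h]; simp

lemma pk_le (D q : ℕ) (hq : 1 ≤ q) (T : V d → ℕ) : pk (adm D q T) ≤ q := by
  by_cases h : ∃ c, adm D q T c
  · exact (pk_spec h).2.1
  · unfold pk; rw [dif_neg h]; exact hq

open Classical in
/-- Greedy choice of coloured centres. -/
noncomputable def st (D q : ℕ) (lam : V d → Option ℕ) : ℕ → V d → ℕ
  | 0 => fun _ => 0
  | j + 1 => fun v =>
    if lam v = some j ∧ ∀ w ∈ bx d D, st D q lam j (v + w) = 0 then
      pk (adm D q (fun w => st D q lam j (v + w)))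
    else st D q lam j v

/-- The resulting system. -/
noncomputable def ctr (D q : ℕ) (lam : V d → Option ℕ) (v : V d) : ℕ :=
  st D q lam ((lam v).elim 0 (· + 1)) v

lemma st_succ_pos {D q : ℕ} {lam : V d → Option ℕ} {j : ℕ} {v : V d}
    (h : lam v = some j ∧ ∀ w ∈ bx d D, st D q lam j (v + w) = 0) :
    st D q lam (j + 1) v = pk (adm D q (fun w => st D q lam j (v + w))) := by
  classical
  show (if _ then _ else _) = _
  rw [if_pos h]

lemma st_succ_neg {D q : ℕ} {lam : V d → Option ℕ} {j : ℕ} {v : V d}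
    (h : ¬ (lam v = some j ∧ ∀ w ∈ bx d D, st D q lam j (v + w) = 0)) :
    st D q lam (j + 1) v = st D q lam j v := by
  classical
  show (if _ then _ else _) = _
  rw [if_neg h]

lemma st_ne_imp {D q : ℕ} {lam : V d → Option ℕ} {j : ℕ} {v : V d}
    (h : st D q lam j v ≠ 0) : ∃ i < j, lam v = some i := by
  classical
  induction j with
  | zero => exact absurd rfl h
  | succ j ih =>
    by_cases hc : lam v = some j ∧ ∀ w ∈ bx d D, st D q lam j (v + w) = 0
    · exact ⟨j, Nat.lt_succ_self j, hc.1⟩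
    · rw [st_succ_neg hc] at h
      obtain ⟨i, hi, h2⟩ := ih h
      exact ⟨i, by omega, h2⟩

lemma st_stable {D q : ℕ} {lam : V d → Option ℕ} {i j : ℕ} {v : V d}
    (h : lam v = some i) (hij : i + 1 ≤ j) : st D q lam j v = st D q lam (i + 1) v := by
  classical
  induction j, hij using Nat.le_induction with
  | base => rfl
  | succ j hj ih =>
    rw [st_succ_neg, ih]
    rintro ⟨h2, -⟩
    rw [h] at h2
    have := Option.some.inj h2
    omega

lemma st_zero_of_le {D q : ℕ} {lam : V d → Option ℕ} {i j : ℕ} {v : V d}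
    (h : lam v = some i) (hij : j ≤ i) : st D q lam j v = 0 := by
  by_contra hne
  obtain ⟨k, hk, h2⟩ := st_ne_imp hne
  rw [h] at h2
  have := Option.some.inj h2
  omega

lemma ctr_eq {D q : ℕ} {lam : V d → Option ℕ} {i j : ℕ} {v : V d}
    (h : lam v = some i) (hij : i < j) : ctr D q lam v = st D q lam j v := by
  unfold ctr
  rw [h, st_stable h hij]
  rfl

lemma ctr_none {D q : ℕ} {lam : V d → Option ℕ} {v : V d}
    (h : lam v = none) : ctr D q lam v = 0 := by
  unfold ctr
  rw [h]
  rfl

lemma st_le {D q : ℕ} (hq : 1 ≤ q) {lam : V d → Option ℕ} (j : ℕ) (v : V d) :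
    st D q lam j v ≤ q := by
  classical
  induction j generalizing v with
  | zero => exact Nat.zero_le _
  | succ j ih =>
    by_cases hc : lam v = some j ∧ ∀ w ∈ bx d D, st D q lam j (v + w) = 0
    · rw [st_succ_pos hc]; exact pk_le D q hq _
    · rw [st_succ_neg hc]; exact ih v

/-- Labellings which are total and proper at distance `4 D`. -/
structure Lab (D : ℕ) (lam : V d → Option ℕ) : Prop where
  tot : ∀ v, ∃ i, lam v = some i
  prop : ∀ v, ∀ w ∈ bx d (4 * D), w ≠ 0 → lam (v + w) ≠ lam v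

lemma branch {D q : ℕ} {lam : V d → Option ℕ} {j : ℕ} {v : V d}
    (h : lam v = some j) (hne : ctr D q lam v ≠ 0) :
    ∀ w ∈ bx d D, st D q lam j (v + w) = 0 := by
  classical
  by_contra hcon
  have h1 : st D q lam (j + 1) v = st D q lam j v := st_succ_neg (fun hh => hcon hh.2)
  rw [ctr_eq h (Nat.lt_succ_self j), h1, st_zero_of_le h le_rfl] at hne
  exact hne rfl

lemma sep_lt {D q : ℕ} {lam : V d → Option ℕ} {i j : ℕ} {u v : V d}
    (hu : lam u = some i) (hv : lam v = some j) (hij : i < j)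
    (hune : ctr D q lam u ≠ 0) (hvne : ctr D q lam v ≠ 0) : u - v ∉ bx d D := by
  intro hmem
  have h1 := branch hv hvne (u - v) hmem
  rw [show v + (u - v) = u by abel] at h1
  rw [ctr_eq hu hij] at hune
  exact hune h1

lemma sep_ctr {D q : ℕ} {lam : V d → Option ℕ} (hl : Lab D lam) {u v : V d} (huv : u ≠ v)
    (hune : ctr D q lam u ≠ 0) (hvne : ctr D q lam v ≠ 0) : u - v ∉ bx d D := by
  obtain ⟨i, hi⟩ := hl.tot u
  obtain ⟨j, hj⟩ := hl.tot v
  rcases lt_trichotomy i j with h | h | h
  · exact sep_lt hi hj h hune hvne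
  · intro hmem
    have := hl.prop v (u - v) (bx_mono (by omega) hmem) (sub_ne_zero.2 huv)
    rw [show v + (u - v) = u by abel, hi, hj, h] at this
    exact this rfl
  · intro hmem
    have := sep_lt hj hi h hvne hune
    apply this
    have h2 := bx_neg hmem
    rwa [neg_sub] at h2

lemma exists_adm {D q : ℕ} (hq : 8 ^ d ≤ q) {lam : V d → Option ℕ} (hl : Lab D lam)
    {j : ℕ} {v : V d} (h : lam v = some j)
    (hb : ∀ w ∈ bx d D, st D q lam j (v + w) = 0) :
    ∃ c, adm D q (fun w => st D q lam j (v + w)) c := by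
  classical
  set T := (bx d (4 * D)).filter (fun w => st D q lam j (v + w) ≠ 0) with hT
  have hctr : ∀ w ∈ T, ctr D q lam (v + w) ≠ 0 := by
    intro w hw
    have h2 := (Finset.mem_filter.1 hw).2
    obtain ⟨i, hi, h3⟩ := st_ne_imp h2
    rw [ctr_eq h3 hi]; exact h2
  have h0 : (0 : V d) ∉ T := by
    intro h2
    have h3 := (Finset.mem_filter.1 h2).2
    rw [add_zero] at h3
    exact h3 (st_zero_of_le h le_rfl)
  have hcard : (insert 0 T).card ≤ 8 ^ d := by
    apply packing D
    · intro w hw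
      rcases Finset.mem_insert.1 hw with rfl | hw
      · exact zero_mem_bx
      · exact (Finset.mem_filter.1 hw).1
    · intro w hw w' hw' hne
      rcases Finset.mem_insert.1 hw with rfl | hw
      · rcases Finset.mem_insert.1 hw' with rfl | hw'
        · exact absurd rfl hne
        · intro hmem
          rw [zero_sub] at hmem
          have := bx_neg hmem
          rw [neg_neg] at this
          exact (Finset.mem_filter.1 hw').2 (hb w' this)
      · rcases Finset.mem_insert.1 hw' with rfl | hw'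
        · intro hmem
          rw [sub_zero] at hmem
          exact (Finset.mem_filter.1 hw).2 (hb w hmem)
        · intro hmem
          apply sep_ctr hl (u := v + w) (v := v + w') (fun hh => hne (add_left_cancel hh))
            (hctr w hw) (hctr w' hw')
          rwa [show v + w - (v + w') = w - w' by abel]
  rw [Finset.card_insert_of_notMem h0] at hcard
  have hlt : (T.image (fun w => st D q lam j (v + w))).card < (Finset.Icc 1 q).card := by
    rw [Nat.card_Icc]
    have := Finset.card_image_le (s := T) (f := fun w => st D q lam j (v + w))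
    omega
  obtain ⟨c, hc, hc2⟩ := Finset.exists_mem_notMem_of_card_lt_card hlt
  rw [Finset.mem_Icc] at hc
  refine ⟨c, hc.1, hc.2, fun w hw heq => ?_⟩
  apply hc2
  rw [Finset.mem_image]
  refine ⟨w, ?_, heq⟩
  rw [hT, Finset.mem_filter]
  refine ⟨hw, ?_⟩
  have : st D q lam j (v + w) = c := heq
  omega

lemma col_lt {D q : ℕ} (hq : 8 ^ d ≤ q) {lam : V d → Option ℕ} (hl : Lab D lam)
    {i j : ℕ} {u v : V d} (hu : lam u = some i) (hv : lam v = some j) (hij : i < j)
    (hvne : ctr D q lam v ≠ 0) (hmem : u - v ∈ bx d (4 * D)) :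
    ctr D q lam u ≠ ctr D q lam v := by
  have hb := branch hv hvne
  have h1 : ctr D q lam v = pk (adm D q (fun w => st D q lam j (v + w))) := by
    rw [ctr_eq hv (Nat.lt_succ_self j), st_succ_pos ⟨hv, hb⟩]
  have h2 := (pk_spec (exists_adm hq hl hv hb)).2.2 (u - v) hmem
  beta_reduce at h2
  rw [show v + (u - v) = u by abel, ← h1, ← ctr_eq hu hij] at h2
  exact h2

theorem ctr_good {D q : ℕ} (hq : 8 ^ d ≤ q) {lam : V d → Option ℕ} (hl : Lab D lam) :
    Good D q (ctr D q lam) := by
  have hq1 : 1 ≤ q := le_trans (Nat.one_le_pow d 8 (by norm_num)) hq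
  refine ⟨fun v => ?_, fun v => ?_, fun u v huv hune hne hmem => ?_⟩
  · obtain ⟨j, hj⟩ := hl.tot v
    by_cases hall : ∀ w ∈ bx d D, st D q lam j (v + w) = 0
    · refine ⟨0, zero_mem_bx, ?_⟩
      rw [add_zero, ctr_eq hj (Nat.lt_succ_self j), st_succ_pos ⟨hj, hall⟩]
      exact pk_pos D q _
    · push Not at hall
      obtain ⟨w, hw, hne⟩ := hall
      obtain ⟨i, hi, h3⟩ := st_ne_imp hne
      exact ⟨w, hw, by rw [ctr_eq h3 hi]; exact hne⟩
  · exact st_le hq1 _ _
  · obtain ⟨i, hi⟩ := hl.tot u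
    obtain ⟨j, hj⟩ := hl.tot v
    rcases lt_trichotomy i j with h | h | h
    · exact col_lt hq hl hi hj h (by rw [← huv]; exact hune) hmem huv
    · have := hl.prop v (u - v) hmem (sub_ne_zero.2 hne)
      rw [show v + (u - v) = u by abel, hi, hj, h] at this
      exact this rfl
    · have h2 := bx_neg hmem
      rw [neg_sub] at h2
      exact col_lt hq hl hj hi h hune h2 huv.symm

lemma st_sh (D q : ℕ) (lam : V d → Option ℕ) (v : V d) (j : ℕ) :
    st D q (sh v lam) j = sh v (st D q lam j) := by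
  classical
  induction j with
  | zero => rfl
  | succ j ih =>
    funext u
    have h : ∀ w : V d, u + w + v = u + v + w := fun w => by abel
    have h2 : (fun w => st D q (sh v lam) j (u + w)) = fun w => st D q lam j (u + v + w) := by
      funext w
      rw [ih, sh_apply, h]
    rw [sh_apply]
    by_cases hc : lam (u + v) = some j ∧ ∀ w ∈ bx d D, st D q lam j (u + v + w) = 0
    · rw [st_succ_pos hc, st_succ_pos, h2]
      refine ⟨hc.1, fun w hw => ?_⟩
      rw [congrFun h2 w]; exact hc.2 w hw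
    · rw [st_succ_neg hc, st_succ_neg, ih, sh_apply]
      rintro ⟨h3, h4⟩
      apply hc
      refine ⟨h3, fun w hw => ?_⟩
      rw [← congrFun h2 w]; exact h4 w hw

lemma ctr_sh (D q : ℕ) (lam : V d → Option ℕ) (v : V d) :
    ctr D q (sh v lam) = sh v (ctr D q lam) := by
  funext u
  unfold ctr
  rw [st_sh, sh_apply, sh_apply]
  rfl

lemma st_local (D q : ℕ) (lam lam' : V d → Option ℕ) (j : ℕ) (v : V d)
    (h : ∀ u ∈ bx d (4 * D * j), ∀ i < j, (lam (v + u) = some i ↔ lam' (v + u) = some i)) :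
    st D q lam j v = st D q lam' j v := by
  classical
  induction j generalizing v with
  | zero => rfl
  | succ j ih =>
    have hr : 4 * D * (j + 1) = 4 * D + 4 * D * j := by ring
    have h2 : ∀ w ∈ bx d (4 * D), st D q lam j (v + w) = st D q lam' j (v + w) := by
      intro w hw
      apply ih
      intro u hu i hi
      rw [add_assoc]
      exact h (w + u) (by rw [hr]; exact bx_add hw hu) i (by omega)
    have h0 : st D q lam j v = st D q lam' j v := by
      have := h2 0 zero_mem_bx
      rwa [add_zero] at this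
    have h1 := h 0 zero_mem_bx j (Nat.lt_succ_self j)
    rw [add_zero] at h1
    have hadm : adm D q (fun w => st D q lam j (v + w)) =
        adm D q (fun w => st D q lam' j (v + w)) := by
      funext c
      unfold adm
      apply propext
      constructor
      · rintro ⟨a, b, e⟩
        exact ⟨a, b, fun w hw => by beta_reduce; rw [← h2 w hw]; exact e w hw⟩
      · rintro ⟨a, b, e⟩
        exact ⟨a, b, fun w hw => by beta_reduce; rw [h2 w hw]; exact e w hw⟩
    by_cases hc : lam v = some j ∧ ∀ w ∈ bx d D, st D q lam j (v + w) = 0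
    · rw [st_succ_pos hc, st_succ_pos, hadm]
      exact ⟨h1.1 hc.1, fun w hw => by rw [← h2 w (bx_mono (by omega) hw)]; exact hc.2 w hw⟩
    · rw [st_succ_neg hc, st_succ_neg, h0]
      rintro ⟨h3, h4⟩
      exact hc ⟨h1.2 h3, fun w hw => by rw [h2 w (bx_mono (by omega) hw)]; exact h4 w hw⟩

lemma ctr_local (D q : ℕ) (lam lam' : V d → Option ℕ) (n : ℕ) (v : V d) {k : ℕ} (hk : k < n)
    (hv : lam v = some k)
    (h : ∀ u ∈ bx d (4 * D * n), ∀ i < n, (lam (v + u) = some i ↔ lam' (v + u) = some i)) :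
    ctr D q lam v = ctr D q lam' v := by
  have hv' : lam' v = some k := by
    have := h 0 zero_mem_bx k hk
    rw [add_zero] at this
    exact this.1 hv
  rw [ctr_eq hv hk, ctr_eq hv' hk]
  exact st_local D q lam lam' n v h

end Pool.Agent.Y782.FF
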