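import Pool.Agent.Y782.FF.CV

set_option autoImplicit false
open MeasureTheory
open scoped ENNReal

namespace Pool.Agent.Y782.FF

variable {d : ℕ}

/-- The iterated Cole–Vishkin labels in direction `w`. -/
noncomputable def ell (w : V d) : ℕ → Om d → V d → ℕ
  | 0 => fun y v => fd (y v) (y (v + w))
  | n + 1 => fun y v => cv (ell w n y v) (ell w n y (v + w))

lemma ell_succ (w : V d) (n : ℕ) (y : Om d) (v : V d) :
    ell w (n + 1) y v = cv (ell w n y v) (ell w n y (v + w)) := rfl

lemma ell_ne {w : V d} (hw : w ≠ 0) {y : Om d} (hy : Function.Injective y) (n : ℕ) (v : V d) :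
    ell w n y v ≠ ell w n y (v + w) := by
  induction n generalizing v with
  | zero => exact fd_ne fun h => hw (by simpa using hy h)
  | succ n ih => exact cv_ne (ih v)

lemma ell_sh (w : V d) (n : ℕ) (y : Om d) (u : V d) : ell w n (sh u y) = sh u (ell w n y) := by
  induction n with
  | zero =>
    funext v
    show fd (y (v + u)) (y (v + w + u)) = fd (y (v + u)) (y (v + u + w))
    rw [add_right_comm]
  | succ n ih =>
    funext v
    rw [ell_succ, ih, sh_apply, sh_apply, sh_apply, ell_succ, add_right_comm]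

lemma ell_local (w : V d) {r : ℕ} (hw : w ∈ bx d r) (n : ℕ) (y y' : Om d) (v : V d)
    (h : ∀ u ∈ bx d (r * (n + 1)), y (v + u) = y' (v + u)) : ell w n y v = ell w n y' v := by
  induction n generalizing v with
  | zero =>
    show fd (y v) (y (v + w)) = fd (y' v) (y' (v + w))
    have h0 := h 0 zero_mem_bx
    rw [add_zero] at h0
    rw [h0, h w (by simpa using hw)]
  | succ n ih =>
    have hr : r * (n + 1 + 1) = r + r * (n + 1) := by ring
    rw [ell_succ, ell_succ, ih v (fun u hu => h u (bx_mono (by rw [hr]; omega) hu)),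
      ih (v + w) (fun u hu => by
        rw [add_assoc]; exact h (w + u) (by rw [hr]; exact bx_add hw hu))]

lemma measurable_ell (w : V d) (n : ℕ) (v : V d) : Measurable (fun y : Om d => ell w n y v) := by
  induction n generalizing v with
  | zero =>
    have h1 : Measurable (fun y : Om d => ((y v, y (v + w)) : unitInterval × unitInterval)) :=
      Measurable.prodMk (measurable_pi_apply v) (measurable_pi_apply (v + w))
    have h2 := Measurable.comp measurable_fd h1
    have h3 : (fun y : Om d => ell w 0 y v) =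
        ((fun p : unitInterval × unitInterval => fd p.1 p.2) ∘
          fun y : Om d => ((y v, y (v + w)) : unitInterval × unitInterval)) := by
      funext y; rfl
    rw [h3]
    exact h2
  | succ n ih =>
    have h1 : Measurable (fun y : Om d => ((ell w n y v, ell w n y (v + w)) : ℕ × ℕ)) :=
      Measurable.prodMk (ih v) (ih (v + w))
    have h2 : Measurable (fun p : ℕ × ℕ => cv p.1 p.2) := measurable_of_countable _
    have h3 : (fun y : Om d => ell w (n + 1) y v) =
        ((fun p : ℕ × ℕ => cv p.1 p.2) ∘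
          fun y : Om d => ((ell w n y v, ell w n y (v + w)) : ℕ × ℕ)) := by
      funext y; rfl
    rw [h3]
    exact Measurable.comp h2 h1

/-- The growth sequence. -/
def TT : ℕ → ℕ
  | 0 => 3
  | n + 1 => 2 ^ (TT n - 1)

lemma TT_pos (n : ℕ) : 1 ≤ TT n := by
  cases n with
  | zero => norm_num [TT]
  | succ n => exact Nat.one_le_two_pow

lemma ell_small_aux (w : V d) (y : Om d) (n : ℕ) : ∀ (i : ℕ) (v : V d),
    (∀ j ≤ n, ell w i y (v + j • w) < 2 ^ TT n) → ell w (i + n) y v < 8 := by
  induction n with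
  | zero =>
    intro i v h
    have := h 0 le_rfl
    rw [zero_smul, add_zero] at this
    simpa [TT] using this
  | succ n ih =>
    intro i v h
    have : i + (n + 1) = (i + 1) + n := by ring
    rw [this]
    apply ih (i + 1) v
    intro j hj
    rw [ell_succ]
    have h1 := h j (by omega)
    have h2 := h (j + 1) (by omega)
    rw [succ_nsmul, ← add_assoc] at h2
    have h3 := cv_lt (TT_pos (n + 1)) h1 h2
    have h4 : 2 * TT (n + 1) = 2 ^ TT n := by
      show 2 * 2 ^ (TT n - 1) = 2 ^ TT n
      rw [← pow_succ']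
      congr 1
      have := TT_pos n
      omega
    rwa [h4] at h3

lemma ell_small (w : V d) (y : Om d) (n : ℕ) (v : V d)
    (h : ∀ j ≤ n + 1, ell w 0 y (v + j • w) < 2 ^ TT n) : ell w (n + 1) y v < 6 := by
  have h1 : ell w n y v < 2 ^ 3 := by
    have := ell_small_aux w y n 0 v (fun j hj => h j (by omega))
    rw [zero_add] at this; exact this
  have h2 : ell w n y (v + w) < 2 ^ 3 := by
    have := ell_small_aux w y n 0 (v + w) (fun j hj => by
      have := h (j + 1) (by omega)
      rw [succ_nsmul', ← add_assoc] at this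
      exact this)
    rw [zero_add] at this; exact this
  rw [ell_succ]
  exact cv_lt (by norm_num) h1 h2

/-! ### Levels and the label -/

/-- directions -/
noncomputable def WW (d D : ℕ) : Finset (V d) := (bx d (4 * D)).erase 0

/-- level predicate -/
def Pl (D n : ℕ) (y : Om d) (v : V d) : Prop := ∀ w ∈ WW d D, ell w n y v < 6

/-- number of codes -/
noncomputable def NN (d D : ℕ) : ℕ := Fintype.card (WW d D → Fin 6)

lemma NN_pos (d D : ℕ) : 1 ≤ NN d D := Fintype.card_pos

/-- coding of the small labels -/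
noncomputable def code (D n : ℕ) (y : Om d) (v : V d) : ℕ :=
  (Fintype.equivFin (WW d D → Fin 6)
    (fun w => ⟨ell w.1 n y v % 6, Nat.mod_lt _ (by norm_num)⟩)).1

lemma code_lt (D n : ℕ) (y : Om d) (v : V d) : code D n y v < NN d D := Fin.is_lt _

/-- label relation -/
def Is (D : ℕ) (y : Om d) (v : V d) (i : ℕ) : Prop :=
  ∃ m, Pl D m y v ∧ (∀ n < m, ¬ Pl D n y v) ∧ i = m * NN d D + code D m y v

lemma Is_unique {D : ℕ} {y : Om d} {v : V d} {i j : ℕ} (hi : Is D y v i) (hj : Is D y v j) :
    i = j := by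
  obtain ⟨m, h1, h2, rfl⟩ := hi
  obtain ⟨m', h1', h2', rfl⟩ := hj
  have : m = m' := by
    rcases lt_trichotomy m m' with h | h | h
    · exact absurd h1 (h2' m h)
    · exact h
    · exact absurd h1' (h2 m' h)
  rw [this]

open Classical in
/-- The label. -/
noncomputable def lam (D : ℕ) (y : Om d) (v : V d) : Option ℕ :=
  if h : ∃ i, Is D y v i then some h.choose else none

lemma lam_eq_some {D : ℕ} {y : Om d} {v : V d} {i : ℕ} : lam D y v = some i ↔ Is D y v i := by
  classical
  unfold lam
  constructor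
  · intro h
    split_ifs at h with hex
    rw [← Option.some.inj h]
    exact hex.choose_spec
  · intro h
    rw [dif_pos ⟨i, h⟩]
    congr 1
    exact Is_unique (Exists.choose_spec (p := Is D y v) ⟨i, h⟩) h

lemma Pl_sh (D n : ℕ) (y : Om d) (u v : V d) : Pl D n (sh u y) v ↔ Pl D n y (v + u) := by
  unfold Pl
  simp only [ell_sh, sh_apply]

lemma code_sh (D n : ℕ) (y : Om d) (u v : V d) : code D n (sh u y) v = code D n y (v + u) := by
  unfold code
  simp only [ell_sh, sh_apply]

lemma Is_sh (D : ℕ) (y : Om d) (u v : V d) (i : ℕ) : Is D (sh u y) v i ↔ Is D y (v + u) i := by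
  unfold Is
  simp only [Pl_sh, code_sh]

lemma lam_sh (D : ℕ) (y : Om d) (u : V d) : lam D (sh u y) = sh u (lam D y) := by
  funext v
  rw [sh_apply]
  rcases h : lam D y (v + u) with _ | i
  · by_contra hne
    obtain ⟨i, hi⟩ := Option.ne_none_iff_exists'.mp hne
    rw [lam_eq_some, Is_sh, ← lam_eq_some, h] at hi
    exact absurd hi (by simp)
  · rw [lam_eq_some, Is_sh, ← lam_eq_some, h]

lemma Pl_local (D n : ℕ) (y y' : Om d) (v : V d)
    (h : ∀ u ∈ bx d (4 * D * (n + 1)), y (v + u) = y' (v + u)) : Pl D n y v ↔ Pl D n y' v := by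
  unfold Pl
  refine forall₂_congr fun w hw => ?_
  rw [ell_local w (Finset.mem_of_mem_erase hw) n y y' v h]

lemma code_local (D n : ℕ) (y y' : Om d) (v : V d)
    (h : ∀ u ∈ bx d (4 * D * (n + 1)), y (v + u) = y' (v + u)) : code D n y v = code D n y' v := by
  unfold code
  congr 2
  funext w
  congr 2
  exact ell_local w.1 (Finset.mem_of_mem_erase w.2) n y y' v h

lemma Is_local_imp (D : ℕ) (y y' : Om d) (v : V d) (i : ℕ)
    (h : ∀ u ∈ bx d (4 * D * (i + 1)), y (v + u) = y' (v + u)) (hi : Is D y v i) :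
    Is D y' v i := by
  obtain ⟨m, h1, h2, h3⟩ := hi
  have hmi : m ≤ i := by
    have := NN_pos d D
    rw [h3]
    calc m = m * 1 := (mul_one m).symm
      _ ≤ m * NN d D := Nat.mul_le_mul_left m this
      _ ≤ _ := Nat.le_add_right _ _
  have hloc : ∀ n ≤ m, ∀ u ∈ bx d (4 * D * (n + 1)), y (v + u) = y' (v + u) := by
    intro n hn u hu
    exact h u (bx_mono (Nat.mul_le_mul_left _ (by omega)) hu)
  refine ⟨m, (Pl_local D m y y' v (hloc m le_rfl)).1 h1, fun n hn hc => ?_, ?_⟩
  · exact h2 n hn ((Pl_local D n y y' v (hloc n hn.le)).2 hc)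
  · rw [h3, code_local D m y y' v (hloc m le_rfl)]

lemma lam_local (D : ℕ) (y y' : Om d) (v : V d) (i : ℕ)
    (h : ∀ u ∈ bx d (4 * D * (i + 1)), y (v + u) = y' (v + u)) :
    lam D y v = some i ↔ lam D y' v = some i := by
  rw [lam_eq_some, lam_eq_some]
  exact ⟨Is_local_imp D y y' v i h, Is_local_imp D y' y v i fun u hu => (h u hu).symm⟩

/-- The label is proper. -/
lemma lam_prop {D : ℕ} {y : Om d} (hy : Function.Injective y) {v w : V d}
    (hw : w ∈ bx d (4 * D)) (hw0 : w ≠ 0) {i : ℕ} (h1 : lam D y v = some i) :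
    lam D y (v + w) ≠ lam D y v := by
  intro h
  rw [h1] at h
  rw [lam_eq_some] at h h1
  obtain ⟨m, hm1, -, hm3⟩ := h1
  obtain ⟨n, hn1, -, hn3⟩ := h
  have hN := NN_pos d D
  have hmn : m = n := by
    have e1 : i / NN d D = m := by
      rw [hm3, mul_comm, Nat.mul_add_div hN, Nat.div_eq_of_lt (code_lt _ _ _ _), add_zero]
    have e2 : i / NN d D = n := by
      rw [hn3, mul_comm, Nat.mul_add_div hN, Nat.div_eq_of_lt (code_lt _ _ _ _), add_zero]
    rw [← e1, ← e2]
  subst hmn
  have hcode : code D m y v = code D m y (v + w) := by omega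
  have hW : w ∈ WW d D := Finset.mem_erase.2 ⟨hw0, hw⟩
  unfold code at hcode
  have h2 := congrFun ((Fintype.equivFin (WW d D → Fin 6)).injective (Fin.ext hcode)) ⟨w, hW⟩
  have h3 := congrArg Fin.val h2
  simp only at h3
  rw [Nat.mod_eq_of_lt (hm1 w hW), Nat.mod_eq_of_lt (hn1 w hW)] at h3
  exact ell_ne hw0 hy m v h3

/-- If `Pl` holds at level `n` then the label is small. -/
lemma lam_le_of_Pl {D n : ℕ} {y : Om d} {v : V d} (h : Pl D n y v) :
    ∃ i, lam D y v = some i ∧ i < NN d D * (n + 1) := by
  classical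
  have hex : ∃ m, Pl D m y v := ⟨n, h⟩
  refine ⟨Nat.find hex * NN d D + code D (Nat.find hex) y v, ?_, ?_⟩
  · rw [lam_eq_some]
    exact ⟨Nat.find hex, Nat.find_spec hex, fun k hk => Nat.find_min hex hk, rfl⟩
  · have h1 : Nat.find hex ≤ n := Nat.find_min' hex h
    have h2 := code_lt D (Nat.find hex) y v
    calc Nat.find hex * NN d D + code D (Nat.find hex) y v
        < Nat.find hex * NN d D + NN d D := by omega
      _ ≤ n * NN d D + NN d D := by
          have := Nat.mul_le_mul_right (NN d D) h1
          omega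
      _ = _ := by ring

lemma measurableSet_Pl (D n : ℕ) (v : V d) : MeasurableSet {y : Om d | Pl D n y v} := by
  have : {y : Om d | Pl D n y v} = ⋂ w ∈ WW d D, {y : Om d | ell w n y v < 6} := by
    ext y
    simp only [Set.mem_iInter]
    rfl
  rw [this]
  exact Finset.measurableSet_biInter _ fun w _ =>
    measurableSet_lt (measurable_ell w n v) measurable_const

lemma measurable_code (D n : ℕ) (v : V d) : Measurable (fun y : Om d => code D n y v) := by
  have h1 : Measurable (fun y : Om d => fun w : WW d D => ell w.1 n y v) :=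
    measurable_pi_lambda _ fun w => measurable_ell w.1 n v
  exact (measurable_of_countable (fun g : WW d D → ℕ =>
    (Fintype.equivFin (WW d D → Fin 6) (fun w => ⟨g w % 6, Nat.mod_lt _ (by norm_num)⟩)).1)).comp h1

lemma measurableSet_lam (D : ℕ) (v : V d) (i : ℕ) :
    MeasurableSet {y : Om d | lam D y v = some i} := by
  have : {y : Om d | lam D y v = some i} = ⋃ m : ℕ, ({y : Om d | Pl D m y v} ∩
      (⋂ n : ℕ, ⋂ _ : n < m, {y : Om d | Pl D n y v}ᶜ)) ∩
      {y : Om d | i = m * NN d D + code D m y v} := by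
    ext y
    simp only [Set.mem_iUnion, Set.mem_inter_iff, Set.mem_iInter, Set.mem_compl_iff]
    show lam D y v = some i ↔ _
    rw [lam_eq_some]
    constructor
    · rintro ⟨m, h1, h2, h3⟩
      exact ⟨m, ⟨h1, fun n hn => h2 n hn⟩, h3⟩
    · rintro ⟨m, ⟨h1, h2⟩, h3⟩
      exact ⟨m, h1, fun n hn => h2 n hn, h3⟩
  rw [this]
  refine MeasurableSet.iUnion fun m => (((measurableSet_Pl D m v)).inter
    (MeasurableSet.iInter fun n => MeasurableSet.iInter fun _ => (measurableSet_Pl D n v).compl)).inter ?_
  exact measurableSet_eq_fun measurable_const ((measurable_code D m v).const_add _)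

end Pool.Agent.Y782.FF
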