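import Mathlib

set_option autoImplicit false
open MeasureTheory
open scoped ENNReal

namespace Pool.Agent.Y782.FF

/-- The lattice. -/
abbrev V (d : ℕ) : Type := Fin d → ℤ

/-- The space of iid labellings. -/
abbrev Om (d : ℕ) : Type := V d → unitInterval

/-- The product measure. -/
noncomputable abbrev mu (d : ℕ) : Measure (Om d) :=
  Measure.infinitePi fun _ : V d => (volume : Measure unitInterval)

/-- Translation of a configuration. -/
def sh {d : ℕ} {X : Type} (v : V d) (y : V d → X) : V d → X := fun u => y (u + v)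

@[simp] lemma sh_apply {d : ℕ} {X : Type} (v : V d) (y : V d → X) (u : V d) :
    sh v y u = y (u + v) := rfl

lemma sh_sh {d : ℕ} {X : Type} (v w : V d) (y : V d → X) : sh v (sh w y) = sh (v + w) y := by
  funext u; simp [sh, add_assoc]

@[simp] lemma sh_zero {d : ℕ} {X : Type} (y : V d → X) : sh (0 : V d) y = y := by
  funext u; simp [sh]

/-- The cube of radius `r`. -/
noncomputable def bx (d r : ℕ) : Finset (V d) := Fintype.piFinset fun _ => Finset.Icc (-(r : ℤ)) r

lemma mem_bx {d r : ℕ} {u : V d} : u ∈ bx d r ↔ ∀ i, |u i| ≤ (r : ℤ) := by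
  simp [bx, Fintype.mem_piFinset, abs_le]

lemma zero_mem_bx {d r : ℕ} : (0 : V d) ∈ bx d r := by simp [mem_bx]

lemma bx_add {d r s : ℕ} {u v : V d} (hu : u ∈ bx d r) (hv : v ∈ bx d s) :
    u + v ∈ bx d (r + s) := by
  rw [mem_bx] at *
  intro i
  have := abs_add_le (u i) (v i)
  have h1 := hu i
  have h2 := hv i
  push_cast
  simp only [Pi.add_apply]
  linarith

lemma bx_neg {d r : ℕ} {u : V d} (hu : u ∈ bx d r) : -u ∈ bx d r := by
  rw [mem_bx] at *
  intro i
  simpa using hu i

lemma bx_mono {d r s : ℕ} (h : r ≤ s) {u : V d} (hu : u ∈ bx d r) : u ∈ bx d s := by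
  rw [mem_bx] at *
  intro i
  exact (hu i).trans (by exact_mod_cast h)

lemma bx_sub {d r s : ℕ} {u v : V d} (hu : u ∈ bx d r) (hv : v ∈ bx d s) :
    u - v ∈ bx d (r + s) := by
  rw [sub_eq_add_neg]; exact bx_add hu (bx_neg hv)

lemma card_bx (d r : ℕ) : (bx d r).card = (2 * r + 1) ^ d := by
  rw [bx, Fintype.card_piFinset]
  simp only [Int.card_Icc, Finset.prod_const, Finset.card_univ, Fintype.card_fin]
  congr 1
  omega

lemma measurable_sh {d : ℕ} (v : V d) : Measurable (sh v : Om d → Om d) := by
  unfold sh; fun_prop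

/-- The product measure is translation invariant. -/
lemma map_sh {d : ℕ} (v : V d) : (mu d).map (sh v) = mu d := by
  refine Measure.eq_infinitePi _ fun s t ht => ?_
  rw [Measure.map_apply (measurable_sh v) (.pi s.countable_toSet fun _ _ => ht _)]
  have : (sh v : Om d → Om d) ⁻¹' ((s : Set (V d)).pi t) =
      Set.pi (↑(s.map (addRightEmbedding v)) : Set (V d)) (fun u => t (u - v)) := by
    ext y
    simp only [Set.mem_preimage, Set.mem_pi, Finset.mem_coe, sh_apply, Finset.mem_map,
      addRightEmbedding_apply, forall_exists_index, and_imp]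
    constructor
    · rintro h i j hj rfl
      simpa using h j hj
    · intro h i hi
      simpa using h (i + v) i hi rfl
  rw [this, Measure.infinitePi_pi _ (fun i _ => ht _), Finset.prod_map]
  simp

lemma mp_sh {d : ℕ} (v : V d) : MeasurePreserving (sh v) (mu d) (mu d) :=
  ⟨measurable_sh v, map_sh v⟩

open Classical in
/-- `z` on `B`, `y` off `B`. -/
noncomputable def mrg {d : ℕ} (B : Set (V d)) (z y : Om d) : Om d := fun u => if u ∈ B then z u else y u

lemma measurable_mrg {d : ℕ} (B : Set (V d)) :
    Measurable (fun p : Om d × Om d => mrg B p.1 p.2) := by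
  classical
  unfold mrg
  refine measurable_pi_lambda _ fun u => ?_
  by_cases h : u ∈ B
  · simp only [h, if_true]; fun_prop
  · simp only [h, if_false]; fun_prop

/-- Resampling outside/inside `B` preserves the product measure. -/
lemma map_mrg {d : ℕ} (B : Set (V d)) :
    ((mu d).prod (mu d)).map (fun p : Om d × Om d => mrg B p.1 p.2) = mu d := by
  classical
  refine Measure.eq_infinitePi _ fun s t ht => ?_
  rw [Measure.map_apply (measurable_mrg B) (.pi s.countable_toSet fun _ _ => ht _)]
  have : (fun p : Om d × Om d => mrg B p.1 p.2) ⁻¹' ((s : Set (V d)).pi t) =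
      (Set.pi (↑(s.filter (· ∈ B)) : Set (V d)) t) ×ˢ
        (Set.pi (↑(s.filter (· ∉ B)) : Set (V d)) t) := by
    ext ⟨z, y⟩
    simp only [Set.mem_preimage, Set.mem_pi, Finset.mem_coe, Set.mem_prod, Finset.mem_filter, mrg]
    constructor
    · intro h
      refine ⟨fun i hi => ?_, fun i hi => ?_⟩
      · have := h i hi.1; rwa [if_pos hi.2] at this
      · have := h i hi.1; rwa [if_neg hi.2] at this
    · rintro ⟨h1, h2⟩ i hi
      by_cases hB : i ∈ B
      · rw [if_pos hB]; exact h1 i ⟨hi, hB⟩
      · rw [if_neg hB]; exact h2 i ⟨hi, hB⟩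
  rw [this, Measure.prod_prod, Measure.infinitePi_pi _ (fun i _ => ht i),
    Measure.infinitePi_pi _ (fun i _ => ht i), Finset.prod_filter_mul_prod_filter_not]

lemma mp_mrg {d : ℕ} (B : Set (V d)) :
    MeasurePreserving (fun p : Om d × Om d => mrg B p.1 p.2) ((mu d).prod (mu d)) (mu d) :=
  ⟨measurable_mrg B, map_mrg B⟩

/-- Fill in the free coordinates of a partial assignment. -/
def fill {d : ℕ} (a : V d → Option unitInterval) (y : Om d) : Om d := fun u => (a u).getD (y u)

open Classical in
/-- Extend a partial assignment by `z` on `B`. -/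
noncomputable def ext {d : ℕ} (B : Set (V d)) (a : V d → Option unitInterval) (z : Om d) :
    V d → Option unitInterval :=
  fun u => if a u = none ∧ u ∈ B then some (z u) else a u

lemma fill_ext {d : ℕ} (B : Set (V d)) (a : V d → Option unitInterval) (z y : Om d) :
    fill (ext B a z) y = fill a (mrg B z y) := by
  classical
  funext u
  unfold fill ext mrg
  by_cases h : a u = none
  · by_cases hB : u ∈ B
    · rw [if_pos ⟨h, hB⟩, if_pos hB, h]; rfl
    · rw [if_neg (fun hh => hB hh.2), if_neg hB]
  · obtain ⟨t, ht⟩ := Option.ne_none_iff_exists'.mp h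
    rw [if_neg (fun hh => h hh.1), ht]; rfl

lemma measurable_fill {d : ℕ} (a : V d → Option unitInterval) : Measurable (fill a) := by
  unfold fill
  refine measurable_pi_lambda _ fun u => ?_
  rcases h : a u with _ | x
  · simp only [Option.getD_none]; fun_prop
  · simp only [Option.getD_some]; fun_prop

/-- Conditional probability of `E` given a partial assignment. -/
noncomputable def ce {d : ℕ} (E : Set (Om d)) (a : V d → Option unitInterval) : ℝ≥0∞ :=
  mu d {y | fill a y ∈ E}

lemma ce_none {d : ℕ} (E : Set (Om d)) : ce E (fun _ => none) = mu d E := by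
  unfold ce; congr 1

/-- Averaging over the newly assigned values. -/
lemma lintegral_ce_ext {d : ℕ} {E : Set (Om d)} (hE : MeasurableSet E) (B : Set (V d))
    (a : V d → Option unitInterval) :
    ∫⁻ z, ce E (ext B a z) ∂(mu d) = ce E a := by
  have hm : MeasurableSet {y : Om d | fill a y ∈ E} := measurable_fill a hE
  have h1 : ce E a = ((mu d).prod (mu d)) ((fun p : Om d × Om d => mrg B p.1 p.2) ⁻¹'
      {y : Om d | fill a y ∈ E}) := by
    rw [(mp_mrg B).measure_preimage hm.nullMeasurableSet]; rfl
  rw [h1, Measure.prod_apply (measurable_mrg B hm)]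
  refine lintegral_congr fun z => ?_
  unfold ce
  congr 1
  ext y
  simp [fill_ext]

lemma measurable_ce_ext {d : ℕ} {E : Set (Om d)} (hE : MeasurableSet E) (B : Set (V d))
    (a : V d → Option unitInterval) : Measurable (fun z => ce E (ext B a z)) := by
  have hm : MeasurableSet {y : Om d | fill a y ∈ E} := measurable_fill a hE
  have h2 := measurable_measure_prodMk_left (ν := mu d) (measurable_mrg B hm)
  have h3 : (fun z => ce E (ext B a z)) = fun z => mu d (Prod.mk z ⁻¹'
      ((fun p : Om d × Om d => mrg B p.1 p.2) ⁻¹' {y : Om d | fill a y ∈ E})) := by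
    funext z
    have h4 : {y | fill (ext B a z) y ∈ E} = Prod.mk z ⁻¹'
      ((fun p : Om d × Om d => mrg B p.1 p.2) ⁻¹' {y : Om d | fill a y ∈ E}) := by
      ext y
      simp [fill_ext]
    show mu d {y | fill (ext B a z) y ∈ E} = _
    rw [h4]
  rw [h3]
  exact h2

end Pool.Agent.Y782.FF
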