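import Pool.Agent.Y782.FF.Labels

set_option autoImplicit false
open MeasureTheory
open scoped ENNReal

namespace Pool.Agent.Y782.FF

variable {d : ℕ}

lemma vol_ball (c : unitInterval) (δ : ℝ) :
    (volume : Measure unitInterval) {x | |(x : ℝ) - c| ≤ δ} ≤ ENNReal.ofReal (2 * δ) := by
  rw [unitInterval.volume_apply]
  have : Subtype.val '' {x : unitInterval | |(x : ℝ) - c| ≤ δ} ⊆ Set.Icc ((c : ℝ) - δ) (c + δ) := by
    rintro _ ⟨x, hx, rfl⟩
    have hx' : |(x : ℝ) - c| ≤ δ := hx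
    rw [abs_le] at hx'
    exact ⟨by linarith [hx'.1], by linarith [hx'.2]⟩
  refine (measure_mono this).trans ?_
  rw [Real.volume_Icc]
  apply ENNReal.ofReal_le_ofReal
  linarith

lemma pair_bound {u u' : V d} (h : u ≠ u') (δ : ℝ) :
    mu d {y | |(y u : ℝ) - y u'| ≤ δ} ≤ ENNReal.ofReal (2 * δ) := by
  classical
  have hm : MeasurableSet {y : Om d | |(y u : ℝ) - y u'| ≤ δ} := by
    apply measurableSet_le _ measurable_const
    have h1 : Measurable (fun y : Om d => (y u : ℝ)) :=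
      Measurable.comp measurable_subtype_coe (measurable_pi_apply u)
    have h2 : Measurable (fun y : Om d => (y u' : ℝ)) :=
      Measurable.comp measurable_subtype_coe (measurable_pi_apply u')
    exact (h1.sub h2).norm
  rw [← (mp_mrg ({u'} : Set (V d))).measure_preimage hm.nullMeasurableSet,
    Measure.prod_apply (measurable_mrg _ hm)]
  calc ∫⁻ z, mu d (Prod.mk z ⁻¹' ((fun p : Om d × Om d => mrg {u'} p.1 p.2) ⁻¹'
        {y : Om d | |(y u : ℝ) - y u'| ≤ δ})) ∂(mu d)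
      ≤ ∫⁻ _ : Om d, ENNReal.ofReal (2 * δ) ∂(mu d) := by
        refine lintegral_mono fun z => ?_
        have : (Prod.mk z ⁻¹' ((fun p : Om d × Om d => mrg {u'} p.1 p.2) ⁻¹'
            {y : Om d | |(y u : ℝ) - y u'| ≤ δ})) =
            (fun y : Om d => y u) ⁻¹' {x : unitInterval | |(x : ℝ) - z u'| ≤ δ} := by
          ext y
          show |((mrg {u'} z y) u : ℝ) - (mrg {u'} z y) u'| ≤ δ ↔ |(y u : ℝ) - z u'| ≤ δ
          unfold mrg
          rw [if_neg (by simpa using h), if_pos (by simp)]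
        rw [this]
        have hm2 : MeasurableSet {x : unitInterval | |(x : ℝ) - z u'| ≤ δ} := by
          apply measurableSet_le _ measurable_const
          exact (measurable_subtype_coe.sub_const _).norm
        have h3 := (measurePreserving_eval_infinitePi
          (fun _ : V d => (volume : Measure unitInterval)) u).measure_preimage hm2.nullMeasurableSet
        have h4 : mu d ((fun y : Om d => y u) ⁻¹' {x : unitInterval | |(x : ℝ) - z u'| ≤ δ}) =
            (volume : Measure unitInterval) {x : unitInterval | |(x : ℝ) - z u'| ≤ δ} := h3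
        rw [h4]
        exact vol_ball _ _
    _ = _ := by simp

lemma fd_bound {u u' : V d} (h : u ≠ u') (m : ℕ) :
    mu d {y | 2 * (m + 1) ≤ fd (y u) (y u')} ≤ 2 * (2⁻¹ : ℝ≥0∞) ^ m := by
  have h1 : mu d {y | 2 * (m + 1) ≤ fd (y u) (y u')} ≤
      mu d {y | |(y u : ℝ) - y u'| ≤ (1 / 2) ^ m} :=
    measure_mono fun y hy => fd_large hy
  refine h1.trans ((pair_bound h _).trans (le_of_eq ?_))
  rw [ENNReal.ofReal_mul (by norm_num), ENNReal.ofReal_pow (by norm_num), one_div,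
    ENNReal.ofReal_inv_of_pos (by norm_num)]
  simp

lemma ae_injective : ∀ᵐ y ∂(mu d), Function.Injective y := by
  have h : ∀ᵐ y ∂(mu d), ∀ u u' : V d, u ≠ u' → y u ≠ y u' := by
    rw [ae_all_iff]; intro u
    rw [ae_all_iff]; intro u'
    by_cases huu : u = u'
    · exact Filter.Eventually.of_forall fun y hne => absurd huu hne
    · have h0 : mu d {y | y u = y u'} = 0 := by
        have hb : ∀ m : ℕ, mu d {y | y u = y u'} ≤ ENNReal.ofReal (2 * (1 / 2) ^ m) := by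
          intro m
          refine le_trans (measure_mono fun y hy => ?_) (pair_bound huu ((1 / 2) ^ m))
          have hy' : y u = y u' := hy
          show |(y u : ℝ) - y u'| ≤ (1 / 2) ^ m
          rw [hy', sub_self, abs_zero]
          positivity
        have hlim : Filter.Tendsto (fun m : ℕ => ENNReal.ofReal (2 * (1 / 2) ^ m)) Filter.atTop
            (nhds 0) := by
          have : Filter.Tendsto (fun m : ℕ => (2 : ℝ) * (1 / 2) ^ m) Filter.atTop (nhds (2 * 0)) :=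
            (tendsto_pow_atTop_nhds_zero_of_lt_one (by norm_num) (by norm_num)).const_mul 2
          have h2 := ENNReal.tendsto_ofReal this
          simpa using h2
        exact le_antisymm (ge_of_tendsto' hlim hb) bot_le
      have h1 : ∀ᵐ y ∂(mu d), y u ≠ y u' := by
        rw [ae_iff]
        simpa using h0
      exact h1.mono fun y hy _ => hy
  exact h.mono fun y hy u u' huu => by
    by_contra hne
    exact hy u u' hne huu

lemma two_TT (n : ℕ) : 2 ^ TT n = 2 * (TT (n + 1) - 1 + 1) := by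
  have h1 := TT_pos n
  have h2 := TT_pos (n + 1)
  have h3 : TT (n + 1) = 2 ^ (TT n - 1) := rfl
  rw [Nat.sub_add_cancel h2, h3, ← pow_succ']
  congr 1; omega

lemma notPl_bound (D n : ℕ) (v : V d) :
    mu d {y | ¬ Pl D (n + 1) y v} ≤
      ((WW d D).card : ℝ≥0∞) * ((n + 2 : ℕ) : ℝ≥0∞) * (2 * (2⁻¹ : ℝ≥0∞) ^ (TT (n + 1) - 1)) := by
  have hsub : {y : Om d | ¬ Pl D (n + 1) y v} ⊆ ⋃ w ∈ WW d D, ⋃ j ∈ Finset.range (n + 2),
      {y : Om d | 2 * (TT (n + 1) - 1 + 1) ≤ fd (y (v + j • w)) (y (v + (j • w + w)))} := by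
    intro y hy
    have hy' : ¬ ∀ w ∈ WW d D, ell w (n + 1) y v < 6 := hy
    push Not at hy'
    obtain ⟨w, hw, h6⟩ := hy'
    simp only [Set.mem_iUnion]
    refine ⟨w, hw, ?_⟩
    by_contra hcon
    push Not at hcon
    have := ell_small w y n v (fun j hj => by
      have h1 := hcon j (Finset.mem_range.2 (by omega))
      have h2 : ¬ (2 * (TT (n + 1) - 1 + 1) ≤ fd (y (v + j • w)) (y (v + (j • w + w)))) := h1
      rw [← two_TT] at h2
      push Not at h2
      show fd (y (v + j • w)) (y (v + j • w + w)) < _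
      rwa [add_assoc])
    omega
  refine (measure_mono hsub).trans ?_
  refine (measure_biUnion_finset_le _ _).trans ?_
  have hinner : ∀ w ∈ WW d D, mu d (⋃ j ∈ Finset.range (n + 2),
      {y : Om d | 2 * (TT (n + 1) - 1 + 1) ≤ fd (y (v + j • w)) (y (v + (j • w + w)))}) ≤
      ((n + 2 : ℕ) : ℝ≥0∞) * (2 * (2⁻¹ : ℝ≥0∞) ^ (TT (n + 1) - 1)) := by
    intro w hw
    refine (measure_biUnion_finset_le _ _).trans ?_
    calc ∑ j ∈ Finset.range (n + 2), mu d
          {y : Om d | 2 * (TT (n + 1) - 1 + 1) ≤ fd (y (v + j • w)) (y (v + (j • w + w)))}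
        ≤ ∑ _j ∈ Finset.range (n + 2), (2 * (2⁻¹ : ℝ≥0∞) ^ (TT (n + 1) - 1)) := by
          refine Finset.sum_le_sum fun j hj => ?_
          refine fd_bound ?_ _
          intro h
          have hw0 : w = 0 := by
            have h2 := add_left_cancel h
            simpa using h2
          exact (Finset.mem_erase.1 hw).1 hw0
      _ = _ := by rw [Finset.sum_const, Finset.card_range, nsmul_eq_mul]
  calc ∑ w ∈ WW d D, mu d (⋃ j ∈ Finset.range (n + 2),
      {y : Om d | 2 * (TT (n + 1) - 1 + 1) ≤ fd (y (v + j • w)) (y (v + (j • w + w)))})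
      ≤ ∑ _w ∈ WW d D, ((n + 2 : ℕ) : ℝ≥0∞) * (2 * (2⁻¹ : ℝ≥0∞) ^ (TT (n + 1) - 1)) :=
        Finset.sum_le_sum hinner
    _ = _ := by rw [Finset.sum_const, nsmul_eq_mul, mul_assoc]

/-- The tower function. -/
def tow (r : ℕ) : ℕ := Nat.iterate (fun n : ℕ => 2 ^ n) r 1

lemma tow_succ (r : ℕ) : tow (r + 1) = 2 ^ tow r := Function.iterate_succ_apply' _ _ _

lemma tow_ge (r : ℕ) : r + 1 ≤ tow r := by
  induction r with
  | zero => exact le_refl 1
  | succ r ih =>
    rw [tow_succ]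
    have := Nat.lt_two_pow_self (n := tow r)
    omega

lemma tow_le_TT (r : ℕ) : tow r + 2 ≤ TT r := by
  induction r with
  | zero => exact le_refl 3
  | succ r ih =>
    rw [tow_succ]
    show _ ≤ 2 ^ (TT r - 1)
    have h1 : 2 ^ (tow r + 1) ≤ 2 ^ (TT r - 1) := Nat.pow_le_pow_right (by norm_num) (by omega)
    have h2 := tow_ge r
    have h3 : 2 ^ 1 ≤ 2 ^ tow r := Nat.pow_le_pow_right (by norm_num) (by omega)
    rw [pow_succ] at h1
    omega

lemma exp_beats (C : ℕ) : ∃ t0 : ℕ, ∀ t ≥ t0, C * t * t ≤ 2 ^ t := by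
  have h := tendsto_pow_const_div_const_pow_of_one_lt 2 (r := (2 : ℝ)) (by norm_num)
  have hC : (0 : ℝ) < 1 / (C + 1) := by positivity
  have h2 := (h.eventually (gt_mem_nhds hC))
  rw [Filter.eventually_atTop] at h2
  obtain ⟨t0, ht0⟩ := h2
  refine ⟨t0, fun t ht => ?_⟩
  have h3 := ht0 t ht
  have hp : (0 : ℝ) < 2 ^ t := by positivity
  rw [div_lt_div_iff₀ hp (by positivity)] at h3
  have h4 : ((C * t * t : ℕ) : ℝ) ≤ ((2 ^ t : ℕ) : ℝ) := by
    push_cast
    nlinarith [sq_nonneg (t : ℝ)]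
  exact_mod_cast h4

/-- the final numerical comparison -/
lemma tail_num (C : ℕ) : ∃ r0 : ℕ, ∀ r ≥ r0,
    (C : ℝ≥0∞) * ((r + 1 : ℕ) : ℝ≥0∞) * (2 * (2⁻¹ : ℝ≥0∞) ^ (TT r - 1)) ≤
      1 / ((tow r : ℕ) : ℝ≥0∞) := by
  obtain ⟨t0, ht0⟩ := exp_beats C
  refine ⟨t0, fun r hr => ?_⟩
  set t := tow r with ht
  have h1 : r + 1 ≤ t := tow_ge r
  have h2 : t + 2 ≤ TT r := tow_le_TT r
  have h3 := ht0 t (by omega)
  have h4 : (2⁻¹ : ℝ≥0∞) ^ (TT r - 1) ≤ (2⁻¹ : ℝ≥0∞) ^ (t + 1) :=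
    pow_le_pow_of_le_one bot_le (by simp) (by omega)
  have h5 : (2 : ℝ≥0∞) * (2⁻¹ : ℝ≥0∞) ^ (t + 1) = (2⁻¹ : ℝ≥0∞) ^ t := by
    rw [pow_succ', ← mul_assoc, ENNReal.mul_inv_cancel (by norm_num) (by norm_num), one_mul]
  have ht1 : (t : ℝ≥0∞) ≠ 0 := by
    have : t ≠ 0 := by omega
    exact_mod_cast this
  calc (C : ℝ≥0∞) * ((r + 1 : ℕ) : ℝ≥0∞) * (2 * (2⁻¹ : ℝ≥0∞) ^ (TT r - 1))
      ≤ (C : ℝ≥0∞) * (t : ℝ≥0∞) * (2 * (2⁻¹ : ℝ≥0∞) ^ (t + 1)) := by
        gcongr
    _ = (C : ℝ≥0∞) * (t : ℝ≥0∞) * (2⁻¹ : ℝ≥0∞) ^ t := by rw [h5]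
    _ ≤ 1 / (t : ℝ≥0∞) := by
        rw [ENNReal.le_div_iff_mul_le (Or.inl ht1) (Or.inl (ENNReal.natCast_ne_top t)),
          ← ENNReal.inv_pow]
        have h6 : ((C * t * t : ℕ) : ℝ≥0∞) ≤ 2 ^ t := by exact_mod_cast h3
        push_cast at h6
        calc (C : ℝ≥0∞) * t * (2 ^ t)⁻¹ * t = (C * t * t) * (2 ^ t)⁻¹ := by ring
          _ ≤ 2 ^ t * (2 ^ t)⁻¹ := by gcongr
          _ ≤ 1 := ENNReal.mul_inv_le_one _

lemma ae_lam (D : ℕ) : ∀ᵐ y ∂(mu d), ∀ v : V d, ∃ i, lam D y v = some i := by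
  rw [ae_all_iff]
  intro v
  have h0 : mu d {y | ¬ ∃ i, lam D y v = some i} = 0 := by
    have hb : ∀ r ≥ (tail_num (WW d D).card).choose + 1,
        mu d {y | ¬ ∃ i, lam D y v = some i} ≤ 1 / (r : ℝ≥0∞) := by
      intro r hr
      obtain ⟨n, rfl⟩ : ∃ n, r = n + 1 := ⟨r - 1, by omega⟩
      have h1 : mu d {y | ¬ ∃ i, lam D y v = some i} ≤ mu d {y | ¬ Pl D (n + 1) y v} := by
        refine measure_mono fun y hy hP => hy ?_
        obtain ⟨i, hi, -⟩ := lam_le_of_Pl hP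
        exact ⟨i, hi⟩
      refine h1.trans ((notPl_bound D n v).trans ?_)
      have h2 := (tail_num (WW d D).card).choose_spec (n + 1) (by omega)
      refine h2.trans ?_
      have h3 : ((n + 1 : ℕ) : ℝ≥0∞) ≤ ((tow (n + 1) : ℕ) : ℝ≥0∞) := by
        have := tow_ge (n + 1)
        exact_mod_cast (by omega : n + 1 ≤ tow (n + 1))
      rw [one_div, one_div]
      exact ENNReal.inv_le_inv.2 h3
    have hlim : Filter.Tendsto (fun r : ℕ => 1 / (r : ℝ≥0∞)) Filter.atTop (nhds 0) := by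
      simp only [one_div]
      exact ENNReal.tendsto_inv_nat_nhds_zero
    refine le_antisymm (ge_of_tendsto hlim ?_) bot_le
    exact Filter.eventually_atTop.2 ⟨_, hb⟩
  rw [ae_iff]
  exact h0

lemma ae_Lab (D : ℕ) : ∀ᵐ y ∂(mu d), Lab D (lam D y) := by
  filter_upwards [ae_injective (d := d), ae_lam (d := d) D] with y h1 h2
  refine ⟨h2, fun v w hw hw0 => ?_⟩
  obtain ⟨i, hi⟩ := h2 v
  exact lam_prop h1 hw hw0 hi

end Pool.Agent.Y782.FF
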