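import Pool.Agent.Y782.FF.Meas

set_option autoImplicit false
open MeasureTheory
open scoped ENNReal

namespace Pool.Agent.Y782.FF

variable {d : ℕ}

/-- `E` depends only on the coordinates in the cube of radius `L`. -/
def Loc (L : ℕ) (E : Set (Om d)) : Prop :=
  ∀ y y' : Om d, (∀ u ∈ bx d L, y u = y' u) → (y ∈ E ↔ y' ∈ E)

lemma ce_congr {L : ℕ} {E : Set (Om d)} (hE : Loc L E) {a a' : V d → Option unitInterval}
    (h : ∀ u ∈ bx d L, a u = a' u) : ce E a = ce E a' := by
  unfold ce
  congr 1
  ext y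
  apply hE
  intro u hu
  simp [fill, h u hu]

lemma sh_ext (B : Set (V d)) (a : V d → Option unitInterval) (z : Om d) (v : V d) :
    sh v (ext B a z) = ext {u | u + v ∈ B} (sh v a) (sh v z) := by
  classical
  funext u
  rw [sh_apply]
  unfold ext
  rw [sh_apply, sh_apply]
  by_cases h : a (u + v) = none ∧ u + v ∈ B
  · rw [if_pos h, if_pos ⟨h.1, show u ∈ {u | u + v ∈ B} from h.2⟩]
  · rw [if_neg h, if_neg (fun hh => h ⟨hh.1, hh.2⟩)]

lemma lintegral_ce_sh {E : Set (Om d)} (hE : MeasurableSet E) (B : Set (V d))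
    (a : V d → Option unitInterval) (v : V d) :
    ∫⁻ z, ce E (sh v (ext B a z)) ∂(mu d) = ce E (sh v a) := by
  simp only [sh_ext]
  rw [(mp_sh v).lintegral_comp (measurable_ce_ext hE {u | u + v ∈ B} (sh v a)),
    lintegral_ce_ext hE]

lemma measurable_ce_sh {E : Set (Om d)} (hE : MeasurableSet E) (B : Set (V d))
    (a : V d → Option unitInterval) (v : V d) :
    Measurable fun z => ce E (sh v (ext B a z)) := by
  simp only [sh_ext]
  exact (measurable_ce_ext hE {u | u + v ∈ B} (sh v a)).comp (measurable_sh v)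

lemma exists_good {E : Set (Om d)} (hE : MeasurableSet E) (D : ℕ)
    (a : V d → Option unitInterval) :
    ∃ z : Om d, ∀ v ∈ bx d (2 * D), ce E (sh v (ext (bx d D) a z)) ≤
      ((bx d (2 * D)).card : ℝ≥0∞) * ce E (sh v a) := by
  classical
  set h : Om d → ℝ≥0∞ := fun z =>
    ∑ v ∈ bx d (2 * D), ce E (sh v (ext (bx d D) a z)) * (ce E (sh v a))⁻¹ with hh
  have hint : ∫⁻ z, h z ∂(mu d) ≤ ((bx d (2 * D)).card : ℝ≥0∞) := by
    rw [hh, lintegral_finsetSum _ (fun v _ => (measurable_ce_sh hE _ a v).mul_const _)]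
    calc ∑ v ∈ bx d (2 * D), ∫⁻ z, ce E (sh v (ext (bx d D) a z)) * (ce E (sh v a))⁻¹ ∂(mu d)
        ≤ ∑ v ∈ bx d (2 * D), (1 : ℝ≥0∞) := by
          refine Finset.sum_le_sum fun v _ => ?_
          rw [lintegral_mul_const _ (measurable_ce_sh hE _ a v), lintegral_ce_sh hE]
          exact ENNReal.mul_inv_le_one _
      _ = _ := by simp
  have hmeas : Measurable h :=
    Finset.measurable_sum _ fun v _ => (measurable_ce_sh hE _ a v).mul_const _
  obtain ⟨z, -, hz⟩ := exists_notMem_null_le_lintegral (μ := mu d) (N := ∅)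
    hmeas.aemeasurable (by simp)
  refine ⟨z, fun v hv => ?_⟩
  have h1 : ce E (sh v (ext (bx d D) a z)) / (ce E (sh v a)) ≤
      ((bx d (2 * D)).card : ℝ≥0∞) := by
    rw [div_eq_mul_inv]
    exact (Finset.single_le_sum (f := fun v => ce E (sh v (ext (bx d D) a z)) *
      (ce E (sh v a))⁻¹) (fun _ _ => bot_le) hv).trans (hz.trans hint)
  have hc : (bx d (2 * D)).card ≠ 0 := Finset.card_ne_zero.mpr ⟨0, zero_mem_bx⟩
  exact (ENNReal.div_le_iff_le_mul (Or.inr (by simp)) (Or.inr (by exact_mod_cast hc))).1 h1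

/-- truncated partial assignment -/
noncomputable def trunc (r : ℕ) (a : V d → Option unitInterval) : V d → Option unitInterval :=
  fun u => if u ∈ bx d r then a u else none

open Classical in
/-- The values chosen in a cell. -/
noncomputable def zz (E : Set (Om d)) (D : ℕ) (b : V d → Option unitInterval) : Om d :=
  if h : ∃ z : Om d, ∀ v ∈ bx d (2 * D), ce E (sh v (ext (bx d D) b z)) ≤
      ((bx d (2 * D)).card : ℝ≥0∞) * ce E (sh v b) then h.choose else fun _ => 0

lemma zz_spec {E : Set (Om d)} (hE : MeasurableSet E) (D : ℕ)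
    (b : V d → Option unitInterval) :
    ∀ v ∈ bx d (2 * D), ce E (sh v (ext (bx d D) b (zz E D b))) ≤
      ((bx d (2 * D)).card : ℝ≥0∞) * ce E (sh v b) := by
  have h := exists_good hE D b
  unfold zz
  rw [dif_pos h]
  exact h.choose_spec

open Classical in
noncomputable def pick (P : V d → Prop) : V d := if h : ∃ w, P w then h.choose else 0

lemma pick_spec {P : V d → Prop} (h : ∃ w, P w) : P (pick P) := by
  unfold pick; rw [dif_pos h]; exact h.choose_spec

open Classical in
/-- One round of the derandomisation: the cells of colour `i` choose their values. -/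
noncomputable def rnd (E : Set (Om d)) (D : ℕ) (s : V d → ℕ) (i : ℕ)
    (a : V d → Option unitInterval) : V d → Option unitInterval := fun u =>
  if a u = none ∧ ∃ w, w ∈ bx d D ∧ s (u + w) = i then
    some (zz E D (trunc (3 * D) (sh (u + pick (fun w => w ∈ bx d D ∧ s (u + w) = i)) a))
      (- pick (fun w => w ∈ bx d D ∧ s (u + w) = i)))
  else a u

/-- A valid system of coloured centres. -/
structure Good (D q : ℕ) (s : V d → ℕ) : Prop where
  cov : ∀ v, ∃ w ∈ bx d D, s (v + w) ≠ 0
  le : ∀ v, s v ≤ q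
  sep : ∀ u v, s u = s v → s u ≠ 0 → u ≠ v → u - v ∉ bx d (4 * D)

lemma rnd_cell {E : Set (Om d)} {D L q : ℕ} (hLD : L ≤ D) {s : V d → ℕ} (hs : Good D q s)
    {i : ℕ} (hi : i ≠ 0) (a : V d → Option unitInterval) {c v : V d} (hc : s c = i)
    (hv : v - c ∈ bx d (2 * D)) {x : V d} (hx : x ∈ bx d L) :
    rnd E D s i a (x + v) =
      ext (bx d D) (sh c a) (zz E D (trunc (3 * D) (sh c a))) (x + (v - c)) := by
  classical
  have hac : sh c a (x + (v - c)) = a (x + v) := by
    simp only [sh]; congr 1; abel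
  by_cases ha : a (x + v) = none
  · by_cases hw : ∃ w, w ∈ bx d D ∧ s (x + v + w) = i
    · obtain ⟨hp1, hp2⟩ := pick_spec hw
      set p := pick (fun w => w ∈ bx d D ∧ s (x + v + w) = i) with hp
      have hcp : x + v + p = c := by
        by_contra hne
        refine hs.sep (x + v + p) c (by rw [hp2, hc]) (by rw [hp2]; exact hi) hne ?_
        have h1 : x + v + p - c = x + (v - c) + p := by abel
        rw [h1]
        exact bx_mono (by omega) (bx_add (bx_add hx hv) hp1)
      have hq : x + (v - c) = - p := by rw [← hcp]; abel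
      have hrnd : rnd E D s i a (x + v) = some (zz E D (trunc (3 * D) (sh c a)) (-p)) := by
        unfold rnd
        rw [if_pos ⟨ha, hw⟩, ← hp, hcp]
      rw [hrnd]
      unfold ext
      rw [hac, hq, if_pos ⟨ha, by exact_mod_cast bx_neg hp1⟩]
    · have hrnd : rnd E D s i a (x + v) = a (x + v) := by
        unfold rnd
        rw [if_neg (fun h => hw h.2)]
      rw [hrnd]
      unfold ext
      rw [hac, if_neg]
      rintro ⟨-, hmem⟩
      apply hw
      refine ⟨c - (x + v), ?_, ?_⟩
      · have : c - (x + v) = -(x + (v - c)) := by abel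
        rw [this]; exact bx_neg (by exact_mod_cast hmem)
      · rw [← hc]; congr 1; abel
  · have hrnd : rnd E D s i a (x + v) = a (x + v) := by
      unfold rnd
      rw [if_neg (fun h => ha h.1)]
    rw [hrnd]
    unfold ext
    rw [hac, if_neg (fun h => ha h.1)]

lemma rnd_step {E : Set (Om d)} (hE : MeasurableSet E) {D L q : ℕ} (hL : Loc L E) (hLD : L ≤ D)
    {s : V d → ℕ} (hs : Good D q s) {i : ℕ} (hi : i ≠ 0) (a : V d → Option unitInterval)
    (v : V d) :
    ce E (sh v (rnd E D s i a)) ≤ ((bx d (2 * D)).card : ℝ≥0∞) * ce E (sh v a) := by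
  classical
  have hone : (1 : ℝ≥0∞) ≤ ((bx d (2 * D)).card : ℝ≥0∞) := by
    have : 1 ≤ (bx d (2 * D)).card := Finset.card_pos.mpr ⟨0, zero_mem_bx⟩
    exact_mod_cast this
  by_cases hex : ∃ c, s c = i ∧ v - c ∈ bx d (2 * D)
  · obtain ⟨c, hc, hv⟩ := hex
    set b := trunc (3 * D) (sh c a) with hb
    have hz := zz_spec hE D b (v - c) hv
    have htr : ∀ x ∈ bx d L, b (x + (v - c)) = sh c a (x + (v - c)) := by
      intro x hx
      rw [hb]; unfold trunc
      rw [if_pos (bx_mono (by omega) (bx_add hx hv))]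
    have h1 : ce E (sh v (rnd E D s i a)) = ce E (sh (v - c) (ext (bx d D) b (zz E D b))) := by
      apply ce_congr hL
      intro x hx
      rw [sh_apply, sh_apply, rnd_cell hLD hs hi a hc hv hx]
      unfold ext
      rw [htr x hx]
    have h2 : ce E (sh (v - c) b) = ce E (sh v a) := by
      apply ce_congr hL
      intro x hx
      rw [sh_apply, htr x hx, sh_apply, sh_apply]
      congr 1; abel
    rw [h1, ← h2]
    exact hz
  · have h1 : ce E (sh v (rnd E D s i a)) = ce E (sh v a) := by
      apply ce_congr hL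
      intro x hx
      rw [sh_apply, sh_apply]
      unfold rnd
      rw [if_neg]
      rintro ⟨-, w, hw, hw2⟩
      apply hex
      refine ⟨x + v + w, hw2, ?_⟩
      have : v - (x + v + w) = -(x + w) := by abel
      rw [this]
      exact bx_neg (bx_mono (by omega) (bx_add hx hw))
    rw [h1]
    calc ce E (sh v a) = 1 * ce E (sh v a) := (one_mul _).symm
      _ ≤ _ := mul_le_mul_left hone _

/-- The partial assignments after `n` rounds. -/
noncomputable def asg (E : Set (Om d)) (D : ℕ) (s : V d → ℕ) : ℕ → V d → Option unitInterval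
  | 0 => fun _ => none
  | n + 1 => rnd E D s (n + 1) (asg E D s n)

lemma asg_bound {E : Set (Om d)} (hE : MeasurableSet E) {D L q : ℕ} (hL : Loc L E) (hLD : L ≤ D)
    {s : V d → ℕ} (hs : Good D q s) (n : ℕ) (v : V d) :
    ce E (sh v (asg E D s n)) ≤ ((bx d (2 * D)).card : ℝ≥0∞) ^ n * mu d E := by
  induction n with
  | zero =>
    rw [pow_zero, one_mul, ← ce_none E]
    rfl
  | succ n ih =>
    refine (rnd_step hE hL hLD hs (Nat.succ_ne_zero n) (asg E D s n) v).trans ?_
    rw [pow_succ', mul_assoc]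
    gcongr

lemma asg_mono {E : Set (Om d)} {D : ℕ} {s : V d → ℕ} {n m : ℕ} (hnm : n ≤ m) {u : V d}
    (h : asg E D s n u ≠ none) : asg E D s m u ≠ none := by
  classical
  induction m, hnm using Nat.le_induction with
  | base => exact h
  | succ m _ ih =>
    show rnd E D s (m + 1) (asg E D s m) u ≠ none
    unfold rnd
    rw [if_neg (fun hh => ih hh.1)]
    exact ih

lemma asg_assigned {E : Set (Om d)} {D : ℕ} {s : V d → ℕ} {n : ℕ} {u w : V d}
    (hw : w ∈ bx d D) (h0 : s (u + w) ≠ 0) (hn : s (u + w) ≤ n) : asg E D s n u ≠ none := by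
  classical
  obtain ⟨m, hm⟩ := Nat.exists_eq_succ_of_ne_zero h0
  refine asg_mono (n := m + 1) (by omega) ?_
  show rnd E D s (m + 1) (asg E D s m) u ≠ none
  unfold rnd
  by_cases h : asg E D s m u = none
  · rw [if_pos ⟨h, w, hw, hm⟩]; simp
  · rw [if_neg (fun hh => h hh.1)]; exact h

/-- The final configuration. -/
noncomputable def zs (E : Set (Om d)) (D q : ℕ) (s : V d → ℕ) : Om d :=
  fun u => (asg E D s q u).getD 0

/-- Main output of the derandomisation. -/
theorem zs_avoids {E : Set (Om d)} (hE : MeasurableSet E) {D L q : ℕ} (hL : Loc L E)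
    (hLD : L ≤ D) (hlt : ((bx d (2 * D)).card : ℝ≥0∞) ^ q * mu d E < 1)
    {s : V d → ℕ} (hs : Good D q s) (v : V d) : sh v (zs E D q s) ∉ E := by
  intro hmem
  have h1 := (asg_bound hE hL hLD hs q v).trans_lt hlt
  have h2 : ce E (sh v (asg E D s q)) = 1 := by
    unfold ce
    have : {y : Om d | fill (sh v (asg E D s q)) y ∈ E} = Set.univ := by
      ext y
      simp only [Set.mem_univ, iff_true]
      show fill (sh v (asg E D s q)) y ∈ E
      have h3 : fill (sh v (asg E D s q)) y = sh v (zs E D q s) := by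
        funext u
        simp only [fill, sh, zs]
        obtain ⟨w, hw, hw0⟩ := hs.cov (u + v)
        have := asg_assigned (E := E) (n := q) hw hw0 (hs.le _)
        obtain ⟨t, ht⟩ := Option.ne_none_iff_exists'.mp this
        rw [ht]; rfl
      rw [h3]; exact hmem
    rw [this]; exact measure_univ
  rw [h2] at h1
  exact lt_irrefl _ h1

lemma rnd_sh (E : Set (Om d)) (D : ℕ) (s : V d → ℕ) (i : ℕ) (a : V d → Option unitInterval)
    (v : V d) : rnd E D (sh v s) i (sh v a) = sh v (rnd E D s i a) := by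
  classical
  funext u
  have h : ∀ w : V d, u + w + v = u + v + w := fun w => by abel
  simp only [rnd, sh_apply, sh_sh, h]

lemma asg_sh (E : Set (Om d)) (D : ℕ) (s : V d → ℕ) (v : V d) (n : ℕ) :
    asg E D (sh v s) n = sh v (asg E D s n) := by
  induction n with
  | zero => rfl
  | succ n ih =>
    show rnd E D (sh v s) (n + 1) (asg E D (sh v s) n) = _
    rw [ih, rnd_sh]; rfl

lemma zs_sh (E : Set (Om d)) (D q : ℕ) (s : V d → ℕ) (v : V d) :
    zs E D q (sh v s) = sh v (zs E D q s) := by
  funext u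
  simp only [zs, asg_sh, sh_apply]

lemma asg_local (E : Set (Om d)) (D : ℕ) (n : ℕ) (s s' : V d → ℕ) (u : V d)
    (h : ∀ w ∈ bx d (4 * D * n), s (u + w) = s' (u + w)) :
    asg E D s n u = asg E D s' n u := by
  classical
  induction n generalizing u with
  | zero => rfl
  | succ n ih =>
    show rnd E D s (n + 1) (asg E D s n) u = rnd E D s' (n + 1) (asg E D s' n) u
    have hr : 4 * D * (n + 1) = 4 * D * n + 4 * D := by ring
    have h0 : asg E D s n u = asg E D s' n u :=
      ih u fun w hw => h w (bx_mono (by omega) hw)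
    have hP : (fun w => w ∈ bx d D ∧ s (u + w) = n + 1) =
        (fun w => w ∈ bx d D ∧ s' (u + w) = n + 1) := by
      funext w
      apply propext
      constructor
      · rintro ⟨hw, h2⟩
        exact ⟨hw, by rw [← h w (bx_mono (by rw [hr]; omega) hw)]; exact h2⟩
      · rintro ⟨hw, h2⟩
        exact ⟨hw, by rw [h w (bx_mono (by rw [hr]; omega) hw)]; exact h2⟩
    have hex : (∃ w, w ∈ bx d D ∧ s (u + w) = n + 1) ↔
        (∃ w, w ∈ bx d D ∧ s' (u + w) = n + 1) := by
      constructor
      · rintro ⟨w, hw⟩; exact ⟨w, by rw [← congrFun hP w]; exact hw⟩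
      · rintro ⟨w, hw⟩; exact ⟨w, by rw [congrFun hP w]; exact hw⟩
    have hpk : pick (fun w => w ∈ bx d D ∧ s' (u + w) = n + 1) =
        pick (fun w => w ∈ bx d D ∧ s (u + w) = n + 1) := by rw [hP]
    unfold rnd
    rw [← h0, hpk]
    by_cases hc : asg E D s n u = none ∧ ∃ w, w ∈ bx d D ∧ s (u + w) = n + 1
    · rw [if_pos hc, if_pos ⟨hc.1, hex.1 hc.2⟩]
      obtain ⟨hp1, hp2⟩ := pick_spec hc.2
      set p := pick (fun w => w ∈ bx d D ∧ s (u + w) = n + 1) with hp
      have : trunc (3 * D) (sh (u + p) (asg E D s n)) =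
          trunc (3 * D) (sh (u + p) (asg E D s' n)) := by
        funext x
        unfold trunc
        by_cases hx : x ∈ bx d (3 * D)
        · rw [if_pos hx, if_pos hx, sh_apply, sh_apply]
          apply ih
          intro w hw
          have h3 : x + (u + p) + w = u + (x + p + w) := by abel
          rw [h3]
          apply h
          exact bx_mono (by rw [hr]; omega) (bx_add (bx_add hx hp1) hw)
        · rw [if_neg hx, if_neg hx]
      rw [this]
    · rw [if_neg hc, if_neg (fun hh => hc ⟨hh.1, hex.2 hh.2⟩)]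

lemma zs_local (E : Set (Om d)) (D q : ℕ) (s s' : V d → ℕ) (u : V d)
    (h : ∀ w ∈ bx d (4 * D * q), s (u + w) = s' (u + w)) :
    zs E D q s u = zs E D q s' u := by
  unfold zs
  rw [asg_local E D q s s' u h]

end Pool.Agent.Y782.FF
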