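import Pool.Agent.Y782.FF.Prob

set_option autoImplicit false
open MeasureTheory
open scoped ENNReal

namespace Pool.Agent.Y782.FF

variable {d k : ℕ}

lemma mrg_mrg (B : Set (V d)) (z y y' : Om d) : mrg B (mrg B z y) y' = mrg B z y' := by
  classical
  funext u
  unfold mrg
  by_cases h : u ∈ B
  · rw [if_pos h, if_pos h, if_pos h]
  · rw [if_neg h, if_neg h]

/-- conditional probability that the output at `0` is `a`, given the labels in the cube. -/
noncomputable def gp (f : Om d → V d → Fin k) (L : ℕ) (a : Fin k) (y : Om d) : ℝ≥0∞ :=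
  mu d {y' | f (mrg (bx d L) y y') 0 = a}

lemma measurable_f0 {f : Om d → V d → Fin k} (hf : Measurable f) :
    Measurable fun y => f y 0 := (measurable_pi_apply (0 : V d)).comp hf

lemma measurableSet_gp {f : Om d → V d → Fin k} (hf : Measurable f) (L : ℕ) (a : Fin k) :
    MeasurableSet {p : Om d × Om d | f (mrg (bx d L) p.1 p.2) 0 = a} :=
  ((measurable_f0 hf).comp (measurable_mrg _)) (measurableSet_singleton a)

lemma measurable_gp {f : Om d → V d → Fin k} (hf : Measurable f) (L : ℕ) (a : Fin k) :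
    Measurable (gp f L a) :=
  measurable_measure_prodMk_left (ν := mu d) (measurableSet_gp hf L a)

lemma gp_unique {f : Om d → V d → Fin k} (hf : Measurable f) {L : ℕ} {a b : Fin k} {y : Om d}
    (ha : gp f L a y = 1) (hb : gp f L b y = 1) : a = b := by
  by_contra hne
  have hm : ∀ c : Fin k, MeasurableSet {y' | f (mrg (bx d L) y y') 0 = c} := fun c =>
    measurable_prodMk_left (measurableSet_gp hf L c)
  have hdis : Disjoint {y' | f (mrg (bx d L) y y') 0 = a} {y' | f (mrg (bx d L) y y') 0 = b} := by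
    rw [Set.disjoint_left]
    intro y' h1 h2
    exact hne (h1.symm.trans h2)
  have h1 := measure_union (μ := mu d) hdis (hm b)
  have h2 : mu d ({y' | f (mrg (bx d L) y y') 0 = a} ∪ {y' | f (mrg (bx d L) y y') 0 = b}) ≤ 1 :=
    prob_le_one
  unfold gp at ha hb
  rw [h1, ha, hb] at h2
  norm_num at h2

open Classical in
/-- the truncated rule -/
noncomputable def fL (f : Om d → V d → Fin k) (a0 : Fin k) (L : ℕ) (y : Om d) : Fin k :=
  if h : ∃ a, gp f L a y = 1 then h.choose else a0

lemma fL_eq {f : Om d → V d → Fin k} (hf : Measurable f) {a0 : Fin k} {L : ℕ} {a : Fin k}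
    {y : Om d} (h : gp f L a y = 1) : fL f a0 L y = a := by
  unfold fL
  rw [dif_pos ⟨a, h⟩]
  exact gp_unique hf (Exists.choose_spec (p := fun a => gp f L a y = 1) ⟨a, h⟩) h

lemma fL_eq_default {f : Om d → V d → Fin k} {a0 : Fin k} {L : ℕ}
    {y : Om d} (h : ∀ a, gp f L a y ≠ 1) : fL f a0 L y = a0 := by
  unfold fL
  rw [dif_neg]
  rintro ⟨a, ha⟩
  exact h a ha

/-- undecided configurations -/
def DL (f : Om d → V d → Fin k) (L : ℕ) : Set (Om d) := {y | ∀ a, gp f L a y ≠ 1}

lemma measurableSet_DL {f : Om d → V d → Fin k} (hf : Measurable f) (L : ℕ) :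
    MeasurableSet (DL f L) := by
  have : DL f L = ⋂ a : Fin k, (gp f L a ⁻¹' {1})ᶜ := by
    ext y
    simp only [Set.mem_iInter, Set.mem_compl_iff, Set.mem_preimage, Set.mem_singleton_iff]
    rfl
  rw [this]
  exact MeasurableSet.iInter fun a => (measurable_gp hf L a (measurableSet_singleton 1)).compl

lemma measurable_fL {f : Om d → V d → Fin k} (hf : Measurable f) (a0 : Fin k) (L : ℕ) :
    Measurable (fL f a0 L) := by
  classical
  refine measurable_to_countable' fun a => ?_
  have : fL f a0 L ⁻¹' {a} = (gp f L a ⁻¹' {1}) ∪ (if a = a0 then DL f L else ∅) := by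
    ext y
    simp only [Set.mem_preimage, Set.mem_singleton_iff, Set.mem_union]
    constructor
    · intro h
      by_cases hex : ∃ b, gp f L b y = 1
      · obtain ⟨b, hb⟩ := hex
        rw [fL_eq hf hb] at h
        left; rw [← h]; exact hb
      · push Not at hex
        rw [fL_eq_default hex] at h
        right
        rw [if_pos h.symm]; exact hex
    · rintro (h | h)
      · exact fL_eq hf h
      · by_cases ha : a = a0
        · rw [if_pos ha] at h
          rw [fL_eq_default h, ha]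
        · rw [if_neg ha] at h
          exact absurd h (Set.notMem_empty y)
  rw [this]
  refine (measurable_gp hf L a (measurableSet_singleton 1)).union ?_
  split_ifs
  · exact measurableSet_DL hf L
  · exact MeasurableSet.empty

lemma fL_local (f : Om d → V d → Fin k) (a0 : Fin k) (L : ℕ) (y y' : Om d)
    (h : ∀ u ∈ bx d L, y u = y' u) : fL f a0 L y = fL f a0 L y' := by
  classical
  have h1 : ∀ z, mrg (bx d L) y z = mrg (bx d L) y' z := by
    intro z
    funext u
    unfold mrg
    by_cases hu : u ∈ (bx d L : Set (V d))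
    · rw [if_pos hu, if_pos hu]; exact h u (by exact_mod_cast hu)
    · rw [if_neg hu, if_neg hu]
  have h2 : ∀ a, gp f L a y = gp f L a y' := by
    intro a
    unfold gp
    simp only [h1]
  unfold fL
  simp only [h2]

lemma null_gp {f : Om d → V d → Fin k} (hf : Measurable f) (L : ℕ) (a : Fin k) :
    mu d {y | gp f L a y = 1 ∧ f y 0 ≠ a} = 0 := by
  have hm : MeasurableSet {y : Om d | gp f L a y = 1 ∧ f y 0 ≠ a} :=
    (measurable_gp hf L a (measurableSet_singleton 1)).inter
      ((measurable_f0 hf) (measurableSet_singleton a)).compl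
  rw [← (mp_mrg ((bx d L : Finset (V d)) : Set (V d))).measure_preimage hm.nullMeasurableSet,
    Measure.prod_apply (measurable_mrg _ hm)]
  rw [lintegral_eq_zero_iff (measurable_measure_prodMk_left (measurable_mrg _ hm))]
  refine Filter.Eventually.of_forall fun z => ?_
  show mu d (Prod.mk z ⁻¹' ((fun p : Om d × Om d => mrg (bx d L) p.1 p.2) ⁻¹'
    {y : Om d | gp f L a y = 1 ∧ f y 0 ≠ a})) = 0
  have hg : ∀ y, gp f L a (mrg (bx d L) z y) = gp f L a z := by
    intro y
    unfold gp
    simp only [mrg_mrg]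
  by_cases hz : gp f L a z = 1
  · have h2 : (Prod.mk z ⁻¹' ((fun p : Om d × Om d => mrg (bx d L) p.1 p.2) ⁻¹'
        {y : Om d | gp f L a y = 1 ∧ f y 0 ≠ a})) = {y' | f (mrg (bx d L) z y') 0 = a}ᶜ := by
      ext y
      show (gp f L a (mrg (bx d L) z y) = 1 ∧ f (mrg (bx d L) z y) 0 ≠ a) ↔
        ¬ (f (mrg (bx d L) z y) 0 = a)
      rw [hg]
      exact ⟨fun h => h.2, fun h => ⟨hz, h⟩⟩
    have hm' : MeasurableSet {y' | f (mrg (bx d L) z y') 0 = a} :=
      measurable_prodMk_left (measurableSet_gp hf L a)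
    rw [h2]
    exact (prob_compl_eq_zero_iff hm').2 hz
  · have h2 : (Prod.mk z ⁻¹' ((fun p : Om d × Om d => mrg (bx d L) p.1 p.2) ⁻¹'
        {y : Om d | gp f L a y = 1 ∧ f y 0 ≠ a})) = ∅ := by
      ext y
      show (gp f L a (mrg (bx d L) z y) = 1 ∧ f (mrg (bx d L) z y) 0 ≠ a) ↔ False
      rw [hg]
      exact ⟨fun h => hz h.1, fun h => h.elim⟩
    rw [h2]; exact measure_empty

lemma fL_bad {f : Om d → V d → Fin k} (hf : Measurable f) (a0 : Fin k) (L : ℕ) :
    mu d {y | fL f a0 L y ≠ f y 0} ≤ mu d (DL f L) := by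
  have hsub : {y : Om d | fL f a0 L y ≠ f y 0} ⊆
      DL f L ∪ ⋃ a : Fin k, {y | gp f L a y = 1 ∧ f y 0 ≠ a} := by
    intro y hy
    by_cases h : ∃ a, gp f L a y = 1
    · obtain ⟨a, ha⟩ := h
      right
      rw [Set.mem_iUnion]
      refine ⟨a, ha, ?_⟩
      intro h2
      exact hy ((fL_eq hf ha).trans h2.symm)
    · left
      push Not at h
      exact h
  refine (measure_mono hsub).trans ((measure_union_le _ _).trans ?_)
  have : mu d (⋃ a : Fin k, {y | gp f L a y = 1 ∧ f y 0 ≠ a}) = 0 := by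
    rw [measure_iUnion_null_iff]
    exact fun a => null_gp hf L a
  rw [this, add_zero]

/-- The moment bound. -/
lemma DL_moment {f : Om d → V d → Fin k} (hf : Measurable f) (L p : ℕ) :
    mu d (DL f L) * ((L + 1 : ℕ) : ℝ≥0∞) ^ p ≤
      ∫⁻ y, (⨅ (r : ℕ) (_ : ∀ y' : (Fin d → ℤ) → unitInterval,
                    (∀ u : Fin d → ℤ, (∀ i, |u i| ≤ (r : ℤ)) → y' u = y u) →
                      f y' 0 = f y 0), (r : ℝ≥0∞)) ^ p ∂(mu d) := by
  classical
  calc mu d (DL f L) * ((L + 1 : ℕ) : ℝ≥0∞) ^ p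
      = ∫⁻ y, (DL f L).indicator (fun _ => ((L + 1 : ℕ) : ℝ≥0∞) ^ p) y ∂(mu d) := by
        rw [lintegral_indicator_const (measurableSet_DL hf L), mul_comm]
    _ ≤ _ := by
        refine lintegral_mono fun y => ?_
        by_cases hy : y ∈ DL f L
        · rw [Set.indicator_of_mem hy]
          gcongr
          refine le_iInf₂ fun r hr => ?_
          have : L + 1 ≤ r := by
            by_contra hlt
            push Not at hlt
            have hrL : r ≤ L := by omega
            apply hy (f y 0)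
            unfold gp
            have : {y' : Om d | f (mrg (bx d L) y y') 0 = f y 0} = Set.univ := by
              ext y'
              show f (mrg (bx d L) y y') 0 = f y 0 ↔ True
              rw [iff_true]
              apply hr
              intro u hu
              unfold mrg
              rw [if_pos]
              exact_mod_cast bx_mono hrL (mem_bx.2 hu)
            rw [this]; exact measure_univ
          exact_mod_cast this
        · rw [Set.indicator_of_notMem hy]; exact bot_le

/-- The basic bad event. -/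
def EE (f : Om d → V d → Fin k) (a0 : Fin k) (F : Finset (V d)) (A : Set (F → Fin k)) (L : ℕ) :
    Set (Om d) := {y | (fun u : F => fL f a0 L (sh (u : V d) y)) ∉ A}

lemma measurableSet_EE {f : Om d → V d → Fin k} (hf : Measurable f) (a0 : Fin k)
    (F : Finset (V d)) (A : Set (F → Fin k)) (L : ℕ) : MeasurableSet (EE f a0 F A L) := by
  have h1 : Measurable (fun y : Om d => fun u : F => fL f a0 L (sh (u : V d) y)) :=
    measurable_pi_lambda _ fun u => (measurable_fL hf a0 L).comp (measurable_sh _)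
  have h2 : MeasurableSet Aᶜ := (Set.toFinite _).measurableSet
  exact h1 h2

lemma loc_EE (f : Om d → V d → Fin k) (a0 : Fin k) (F : Finset (V d)) (A : Set (F → Fin k))
    (L : ℕ) {b : ℕ} (hb : ∀ u ∈ F, u ∈ bx d b) : Loc (L + b) (EE f a0 F A L) := by
  intro y y' h
  have : (fun u : F => fL f a0 L (sh (u : V d) y)) = (fun u : F => fL f a0 L (sh (u : V d) y')) := by
    funext u
    apply fL_local
    intro x hx
    exact h _ (bx_add hx (hb u.1 u.2))
  show (fun u : F => fL f a0 L (sh (u : V d) y)) ∉ A ↔ (fun u : F => fL f a0 L (sh (u : V d) y')) ∉ A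
  rw [this]

lemma EE_bound {f : Om d → V d → Fin k} (hf : Measurable f) (a0 : Fin k)
    (F : Finset (V d)) (A : Set (F → Fin k)) (L : ℕ)
    (hsh : ∀ (y : Om d) (v : V d), f (fun u => y (u + v)) = fun u => f y (u + v))
    (hA : ∀ᵐ y ∂(mu d), ∀ v : V d, (fun u : F => f y ((u : V d) + v)) ∈ A) :
    mu d (EE f a0 F A L) ≤ (F.card : ℝ≥0∞) * mu d (DL f L) := by
  have hnull : mu d {y | ¬ (fun u : F => f y (u : V d)) ∈ A} = 0 := by
    have h1 : ∀ᵐ y ∂(mu d), (fun u : F => f y (u : V d)) ∈ A := by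
      filter_upwards [hA] with y hy
      have := hy 0
      simpa using this
    exact ae_iff.1 h1
  have hsub : EE f a0 F A L ⊆ (⋃ u ∈ F, {y | fL f a0 L (sh u y) ≠ f (sh u y) 0}) ∪
      {y | ¬ (fun u : F => f y (u : V d)) ∈ A} := by
    intro y hy
    by_cases hcon : ∃ u ∈ F, fL f a0 L (sh u y) ≠ f (sh u y) 0
    · left
      obtain ⟨u, hu, h2⟩ := hcon
      simp only [Set.mem_iUnion]
      exact ⟨u, hu, h2⟩
    · right
      push Not at hcon
      intro hmem
      apply hy
      have : (fun u : F => fL f a0 L (sh (u : V d) y)) = (fun u : F => f y (u : V d)) := by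
        funext u
        rw [hcon u.1 u.2]
        have h3 := congrFun (hsh y u.1) 0
        rw [zero_add] at h3
        exact h3
      rw [this]
      exact hmem
  refine (measure_mono hsub).trans ((measure_union_le _ _).trans ?_)
  rw [hnull, add_zero]
  refine (measure_biUnion_finset_le _ _).trans ?_
  calc ∑ u ∈ F, mu d {y | fL f a0 L (sh u y) ≠ f (sh u y) 0}
      ≤ ∑ _u ∈ F, mu d (DL f L) := by
        refine Finset.sum_le_sum fun u _ => ?_
        have hm : MeasurableSet {y : Om d | fL f a0 L y ≠ f y 0} :=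
          (measurableSet_eq_fun (measurable_fL hf a0 L) (measurable_f0 hf)).compl
        have h1 := (mp_sh u).measure_preimage hm.nullMeasurableSet
        calc mu d {y | fL f a0 L (sh u y) ≠ f (sh u y) 0}
            = mu d (sh u ⁻¹' {y : Om d | fL f a0 L y ≠ f y 0}) := rfl
          _ = mu d {y : Om d | fL f a0 L y ≠ f y 0} := h1
          _ ≤ _ := fL_bad hf a0 L
    _ = _ := by rw [Finset.sum_const, nsmul_eq_mul]

/-- Choice of the scale. -/
lemma exists_scale {f : Om d → V d → Fin k} (hf : Measurable f) (a0 : Fin k)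
    (F : Finset (V d)) (A : Set (F → Fin k)) (b : ℕ)
    (hsh : ∀ (y : Om d) (v : V d), f (fun u => y (u + v)) = fun u => f y (u + v))
    (hA : ∀ᵐ y ∂(mu d), ∀ v : V d, (fun u : F => f y ((u : V d) + v)) ∈ A)
    (q p : ℕ) (hp : p = d * q + 1)
    (hmom : ∫⁻ y, (⨅ (r : ℕ) (_ : ∀ y' : (Fin d → ℤ) → unitInterval,
                    (∀ u : Fin d → ℤ, (∀ i, |u i| ≤ (r : ℤ)) → y' u = y u) →
                      f y' 0 = f y 0), (r : ℝ≥0∞)) ^ p ∂(mu d) < ⊤) :
    ∃ L : ℕ, ((bx d (2 * (L + b))).card : ℝ≥0∞) ^ q * mu d (EE f a0 F A L) < 1 := by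
  set M := ∫⁻ y, (⨅ (r : ℕ) (_ : ∀ y' : (Fin d → ℤ) → unitInterval,
                    (∀ u : Fin d → ℤ, (∀ i, |u i| ≤ (r : ℤ)) → y' u = y u) →
                      f y' 0 = f y 0), (r : ℝ≥0∞)) ^ p ∂(mu d) with hM
  set C : ℝ≥0∞ := ((4 * b + 4 : ℕ) : ℝ≥0∞) ^ (d * q) * ((F.card : ℝ≥0∞) * M) with hC
  have hCfin : C ≠ ⊤ := by
    rw [hC]
    apply ENNReal.mul_ne_top
    · exact ENNReal.pow_ne_top (ENNReal.natCast_ne_top _)
    · exact ENNReal.mul_ne_top (ENNReal.natCast_ne_top _) hmom.ne
  obtain ⟨n, hn⟩ := ENNReal.exists_nat_gt hCfin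
  refine ⟨n, ?_⟩
  set x : ℝ≥0∞ := ((n + 1 : ℕ) : ℝ≥0∞) with hx
  have hCx : C < x := hn.trans_le (by rw [hx]; exact_mod_cast Nat.le_succ n)
  have h1 : mu d (EE f a0 F A n) * x ^ p ≤ (F.card : ℝ≥0∞) * M := by
    calc mu d (EE f a0 F A n) * x ^ p ≤ ((F.card : ℝ≥0∞) * mu d (DL f n)) * x ^ p := by
          gcongr
          exact EE_bound hf a0 F A n hsh hA
      _ = (F.card : ℝ≥0∞) * (mu d (DL f n) * x ^ p) := by ring
      _ ≤ _ := by
          gcongr
          exact DL_moment hf n p
  have h2 : ((bx d (2 * (n + b))).card : ℝ≥0∞) ^ q ≤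
      ((4 * b + 4 : ℕ) : ℝ≥0∞) ^ (d * q) * x ^ (d * q) := by
    rw [card_bx, ← mul_pow, hx]
    have h3 : ((2 * (2 * (n + b)) + 1) ^ d) ^ q ≤ ((4 * b + 4) * (n + 1)) ^ (d * q) := by
      rw [← pow_mul]
      apply Nat.pow_le_pow_left
      nlinarith [Nat.zero_le (b * n)]
    exact_mod_cast h3
  by_contra hcon
  push Not at hcon
  have h4 : x ≤ C := by
    calc x = 1 * x := (one_mul x).symm
      _ ≤ (((bx d (2 * (n + b))).card : ℝ≥0∞) ^ q * mu d (EE f a0 F A n)) * x := by gcongr
      _ ≤ ((((4 * b + 4 : ℕ) : ℝ≥0∞) ^ (d * q) * x ^ (d * q)) * mu d (EE f a0 F A n)) * x := by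
          gcongr
      _ = ((4 * b + 4 : ℕ) : ℝ≥0∞) ^ (d * q) * (mu d (EE f a0 F A n) * x ^ p) := by
          rw [hp, pow_succ]; ring
      _ ≤ C := by
          rw [hC]; gcongr
  exact absurd hCx (not_lt.2 h4)

end Pool.Agent.Y782.FF
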